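import Pool.Agent.Helper99.ZS.Lib

set_option autoImplicit false
set_option linter.unusedSectionVars false

/-!
MP_98699e_co, module BR2: a branch of length two grows (Cauchy-Davenport).
-/

open Finset MeasureTheory
open scoped Pointwise

noncomputable section

namespace ZS

section br2
variable {V : Type} [Fintype V] [DecidableEq V] {p : ℕ}

theorem br2_av_le_ave {h : Host V p} {s : Bool} {g : V → ℝ} {f : V → V → ℝ}
    (hgf : ∀ u, (h.N s u).Nonempty → (#(h.N s u) : ℝ) * g u ≤ ∑ w ∈ h.N s u, f u w) :
    av h s g ≤ ave h s f := by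
  rw [av_def]
  unfold ave
  refine div_le_div_of_nonneg_right (sum_le_sum fun u _ => ?_) (tot_nonneg h s)
  rcases (h.N s u).eq_empty_or_nonempty with hx | hx
  · simp [hx]
  · exact hgf u hx

variable [NeZero p]

theorem br2_eq (h : Host V p) (t : RT) (s : Bool) (u : V) (T : ℕ) {A B : Finset V} (hAB : A ⊆ B)
    (hc : cs h t s u T A = cs h t s u T B) (hlt : #(X h t s u A) < T) :
    X h t s u A = X h t s u B := by
  refine eq_of_subset_of_card_le (X_mono h t s u hAB) ?_
  unfold cs at hc
  omega

theorem br2_card (h : Host V p) (t : RT) (s : Bool) (u : V) (T : ℕ) (A : Finset V)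
    (hlt : cs h t s u T A < T) : #(X h t s u A) = cs h t s u T A := by
  unfold cs at *
  omega

/-- total change of the three functions along the edge -/
def br2_I (h : Host V p) (a : RT) (T : ℕ) (u w : V) (A : Finset V) : ℝ :=
  (((cs h a true u T (insert w A) : ℝ) - cs h a true u T (A.erase w)) +
    ((cs h (RT.cons a RT.nil) false w T (insert u A) : ℝ) -
      cs h (RT.cons a RT.nil) false w T (A.erase u))) +
    ((cs h (RT.cons (RT.cons a RT.nil) RT.nil) true u T (insert w A) : ℝ) -
      cs h (RT.cons (RT.cons a RT.nil) RT.nil) true u T (A.erase w))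

theorem br2_sub (A : Finset V) (w : V) : A.erase w ⊆ insert w A :=
  (A.erase_subset w).trans (A.subset_insert w)

theorem br2_I_nonneg (h : Host V p) (a : RT) (T : ℕ) (u w : V) (A : Finset V) :
    0 ≤ br2_I h a T u w A := by
  unfold br2_I
  have h1 : (cs h a true u T (A.erase w) : ℝ) ≤ cs h a true u T (insert w A) := by
    exact_mod_cast cs_mono h a true u T (br2_sub A w)
  have h2 : (cs h (RT.cons a RT.nil) false w T (A.erase u) : ℝ) ≤
      cs h (RT.cons a RT.nil) false w T (insert u A) := by
    exact_mod_cast cs_mono h _ false w T (br2_sub A u)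
  have h3 : (cs h (RT.cons (RT.cons a RT.nil) RT.nil) true u T (A.erase w) : ℝ) ≤
      cs h (RT.cons (RT.cons a RT.nil) RT.nil) true u T (insert w A) := by
    exact_mod_cast cs_mono h _ true u T (br2_sub A w)
  linarith

/-- the chain of containments -/
theorem br2_chain (h : Host V p) (a : RT) (T : ℕ) {u w : V} (hw : w ∈ h.N true u)
    (A : Finset V) : (cs h a true u T A : ℝ) - br2_I h a T u w A ≤
      cs h (RT.cons (RT.cons a RT.nil) RT.nil) true u T A := by
  have h1 : (cs h a true u T A : ℝ) ≤ cs h a true u T (insert w A) := by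
    exact_mod_cast cs_mono h a true u T (A.subset_insert w)
  have h2 : (cs h (RT.cons (RT.cons a RT.nil) RT.nil) true u T (A.erase w) : ℝ) ≤
      cs h (RT.cons (RT.cons a RT.nil) RT.nil) true u T A := by
    exact_mod_cast cs_mono h _ true u T (A.erase_subset w)
  have h3 : (cs h (RT.cons a RT.nil) false w T (A.erase u) : ℝ) ≤
      cs h (RT.cons (RT.cons a RT.nil) RT.nil) true u T (insert w A) := by
    exact_mod_cast cs_branch h (RT.cons a RT.nil) hw T A
  have hu : u ∈ h.N false w := (N_symm h true u w).1 hw
  have h4 : (cs h a true u T (A.erase w) : ℝ) ≤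
      cs h (RT.cons a RT.nil) false w T (insert u A) := by
    exact_mod_cast cs_branch h a hu T A
  unfold br2_I
  linarith

/-- a stable neighbour -/
theorem br2_stable (h : Host V p) (a : RT) (T : ℕ) {u w : V} (hw : w ∈ h.N true u)
    (A : Finset V) (hI : br2_I h a T u w A < 1)
    (hlt : cs h (RT.cons (RT.cons a RT.nil) RT.nil) true u T A < T) {y : ZMod p}
    (hy : y ∈ X h a true u A) :
    2 * h.c u w + y ∈ X h (RT.cons (RT.cons a RT.nil) RT.nil) true u A := by
  have hu : u ∈ h.N false w := (N_symm h true u w).1 hw
  have e1 := cs_mono h a true u T (br2_sub A w)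
  have e2 := cs_mono h (RT.cons a RT.nil) false w T (br2_sub A u)
  have e3 := cs_mono h (RT.cons (RT.cons a RT.nil) RT.nil) true u T (br2_sub A w)
  have e4 : (cs h a true u T (insert w A) + cs h (RT.cons a RT.nil) false w T (insert u A) +
      cs h (RT.cons (RT.cons a RT.nil) RT.nil) true u T (insert w A)) <
      cs h a true u T (A.erase w) + cs h (RT.cons a RT.nil) false w T (A.erase u) +
      cs h (RT.cons (RT.cons a RT.nil) RT.nil) true u T (A.erase w) + 1 := by
    unfold br2_I at hI
    have : ((cs h a true u T (insert w A) + cs h (RT.cons a RT.nil) false w T (insert u A) +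
      cs h (RT.cons (RT.cons a RT.nil) RT.nil) true u T (insert w A) : ℕ) : ℝ) <
      ((cs h a true u T (A.erase w) + cs h (RT.cons a RT.nil) false w T (A.erase u) +
      cs h (RT.cons (RT.cons a RT.nil) RT.nil) true u T (A.erase w) + 1 : ℕ) : ℝ) := by
      push_cast
      linarith
    exact_mod_cast this
  have e5 := cs_mono h a true u T (A.subset_insert w)
  have e6 := cs_mono h a true u T (A.erase_subset w)
  have e7 := cs_mono h (RT.cons (RT.cons a RT.nil) RT.nil) true u T (A.subset_insert w)
  have e8 := cs_mono h (RT.cons (RT.cons a RT.nil) RT.nil) true u T (A.erase_subset w)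
  -- the last tree
  have hX3 := br2_card h (RT.cons (RT.cons a RT.nil) RT.nil) true u T A hlt
  have f3 := br2_eq h (RT.cons (RT.cons a RT.nil) RT.nil) true u T (A.subset_insert w) (by omega)
    (by omega)
  have g3 := card_X_branch h (RT.cons a RT.nil) hw A
  rw [← f3] at g3
  have f2 := br2_eq h (RT.cons a RT.nil) false w T (br2_sub A u) (by omega)
    (lt_of_le_of_lt g3 (by omega))
  have g2 := card_X_branch h a hu A
  rw [← f2] at g2
  simp only [Bool.not_false, Bool.not_true] at g2 g3
  have f1 := br2_eq h a true u T (A.erase_subset w) (by omega) (by omega)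
  rw [← f1] at hy
  have k1 := X_branch h a hu A hy
  rw [← f2] at k1
  have k2 := X_branch h (RT.cons a RT.nil) hw A k1
  rw [← f3, h.symm w u] at k2
  rw [two_mul, add_assoc]
  exact k2

end br2

open Classical in
theorem br2_point {V : Type} [Fintype V] [DecidableEq V] {p : ℕ} [Fact p.Prime] (h : Host V p)
    {D : ℕ} (hp2 : p ≠ 2) (hg : h.Good D) (a : RT) {T T' R : ℕ} (hR : 1 ≤ R)
    (hRD : 2 * p * R ≤ D) (hTp : T ≤ p) (hT' : T' ≤ T) (hT : T ≤ T' + R - 1) {u : V}
    (hu : (h.N true u).Nonempty) (A : Finset V) :
    (#(h.N true u) : ℝ) * ((T : ℝ) - cs h (RT.cons (RT.cons a RT.nil) RT.nil) true u T A) ≤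
      ∑ w ∈ h.N true u, (((T' : ℝ) - cs h a true u T' A) + 2 * R * br2_I h a T u w A +
        R * (if X h a true u A = ∅ then 1 else 0)) := by
  have hn : (0 : ℝ) < #(h.N true u) := by exact_mod_cast card_pos.2 hu
  rw [sum_add_distrib, sum_add_distrib, sum_const, sum_const, nsmul_eq_mul, nsmul_eq_mul,
    ← mul_sum]
  have hR0 : (1 : ℝ) ≤ R := by exact_mod_cast hR
  have hC : 0 ≤ (T' : ℝ) - cs h a true u T' A := by
    have : (cs h a true u T' A : ℝ) ≤ T' := by exact_mod_cast cs_le h a true u T' A
    linarith
  have hS : 0 ≤ ∑ w ∈ h.N true u, br2_I h a T u w A :=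
    sum_nonneg fun w _ => br2_I_nonneg h a T u w A
  have hTR : (T : ℝ) + 1 ≤ T' + R := by
    have : T + 1 ≤ T' + R := by omega
    exact_mod_cast this
  have hcs := cs_le h (RT.cons (RT.cons a RT.nil) RT.nil) true u T A
  rcases hcs.lt_or_eq with hlt | heq
  · by_cases hY : X h a true u A = ∅
    · -- no embedding of `a`
      rw [if_pos hY]
      have h0 : cs h a true u T' A = 0 := by
        unfold cs; rw [hY]; simp
      rw [h0]
      have h1 : (#(h.N true u) : ℝ) *
          ((T : ℝ) - cs h (RT.cons (RT.cons a RT.nil) RT.nil) true u T A) ≤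
          #(h.N true u) * ((T' : ℝ) + R) := by
        refine mul_le_mul_of_nonneg_left ?_ hn.le
        have : (0 : ℝ) ≤ cs h (RT.cons (RT.cons a RT.nil) RT.nil) true u T A := by positivity
        linarith
      have h2 : 0 ≤ 2 * (R : ℝ) * ∑ w ∈ h.N true u, br2_I h a T u w A := by positivity
      push_cast
      nlinarith
    · rw [if_neg hY, mul_zero, mul_zero, add_zero]
      have hYne : (X h a true u A).Nonempty := nonempty_iff_ne_empty.2 hY
      set U := {w ∈ h.N true u | ¬ br2_I h a T u w A < 1} with hU
      set S := {w ∈ h.N true u | br2_I h a T u w A < 1} with hSt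
      have hcard : #S + #U = #(h.N true u) := card_filter_add_card_filter_not _
      have hDn := hg.deg true u hu
      rcases le_or_gt (2 * #U) (#(h.N true u)) with hU2 | hU2
      · -- many stable neighbours
        have h1 : p * R ≤ #S := by
          have : 2 * p * R = 2 * (p * R) := by ring
          omega
        have hp0 : 0 < p := (Fact.out : p.Prime).pos
        have h2 : #S ≤ p * #(S.image fun w => h.c u w) := by
          refine card_le_mul_card_image S p fun x _ => ?_
          refine le_trans (card_le_card ?_) (hg.col u x).le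
          intro w hw
          rw [mem_filter] at hw ⊢
          exact ⟨(mem_filter.1 hw.1).1, hw.2⟩
        have h3 : R ≤ #(S.image fun w => h.c u w) :=
          le_of_mul_le_mul_left (h1.trans h2) hp0
        have h4 : (2 : ZMod p) ≠ 0 := by
          intro h20
          have h5 : ((2 : ℕ) : ZMod p) = 0 := by exact_mod_cast h20
          rw [ZMod.natCast_eq_zero_iff] at h5
          have := (Nat.prime_dvd_prime_iff_eq (Fact.out : p.Prime) Nat.prime_two).1 h5
          exact hp2 this
        set Z := (S.image fun w => h.c u w).image fun x => 2 * x with hZ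
        have h5 : #Z = #(S.image fun w => h.c u w) :=
          card_image_of_injective _ fun x y hxy => mul_left_cancel₀ h4 hxy
        have hZne : Z.Nonempty := card_pos.1 (by omega)
        have h6 : Z + X h a true u A ⊆ X h (RT.cons (RT.cons a RT.nil) RT.nil) true u A := by
          intro x hx
          rw [mem_add] at hx
          obtain ⟨z, hz, y, hy, rfl⟩ := hx
          rw [hZ, mem_image] at hz
          obtain ⟨z', hz', rfl⟩ := hz
          rw [mem_image] at hz'
          obtain ⟨w, hw, rfl⟩ := hz'
          rw [hSt, mem_filter] at hw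
          exact br2_stable h a T hw.1 A hw.2 hlt hy
        have h7 := ZMod.cauchy_davenport (Fact.out : p.Prime) hZne hYne
        have h8 := card_le_card h6
        have h9 := br2_card h (RT.cons (RT.cons a RT.nil) RT.nil) true u T A hlt
        have h10 : R + #(X h a true u A) - 1 ≤
            cs h (RT.cons (RT.cons a RT.nil) RT.nil) true u T A := by
          omega
        have h11 := cs_le_card h a true u T' A
        have h12 : (R : ℝ) + cs h a true u T' A ≤
            cs h (RT.cons (RT.cons a RT.nil) RT.nil) true u T A + 1 := by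
          have : R + cs h a true u T' A ≤
            cs h (RT.cons (RT.cons a RT.nil) RT.nil) true u T A + 1 := by omega
          exact_mod_cast this
        have h13 : (#(h.N true u) : ℝ) *
            ((T : ℝ) - cs h (RT.cons (RT.cons a RT.nil) RT.nil) true u T A) ≤
            #(h.N true u) * ((T' : ℝ) - cs h a true u T' A) :=
          mul_le_mul_of_nonneg_left (by linarith) hn.le
        have h14 : 0 ≤ 2 * (R : ℝ) * ∑ w ∈ h.N true u, br2_I h a T u w A := by positivity
        linarith
      · -- many unstable neighbours
        have h1 : (#U : ℝ) ≤ ∑ w ∈ h.N true u, br2_I h a T u w A := by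
          calc (#U : ℝ) = ∑ w ∈ U, 1 := by simp
            _ ≤ ∑ w ∈ U, br2_I h a T u w A := by
              refine sum_le_sum fun w hw => ?_
              rw [hU, mem_filter] at hw
              exact not_lt.1 hw.2
            _ ≤ _ := sum_le_sum_of_subset_of_nonneg (filter_subset _ _)
              fun w _ _ => br2_I_nonneg h a T u w A
        have h2 : (#(h.N true u) : ℝ) ≤ 2 * ∑ w ∈ h.N true u, br2_I h a T u w A := by
          have : (#(h.N true u) : ℝ) ≤ 2 * #U := by exact_mod_cast hU2.le
          linarith
        have h3 : (#(h.N true u) : ℝ) *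
            ((cs h a true u T A : ℝ) -
              cs h (RT.cons (RT.cons a RT.nil) RT.nil) true u T A) ≤
            ∑ w ∈ h.N true u, br2_I h a T u w A := by
          rw [← nsmul_eq_mul, ← sum_const]
          refine sum_le_sum fun w hw => ?_
          have := br2_chain h a T hw A
          linarith
        have h4 : (T : ℝ) - cs h a true u T A ≤
            ((T' : ℝ) - cs h a true u T' A) + (R - 1) := by
          have : (cs h a true u T' A : ℝ) ≤ cs h a true u T A := by
            have : cs h a true u T' A ≤ cs h a true u T A := by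
              unfold cs; omega
            exact_mod_cast this
          linarith
        have h5 : (#(h.N true u) : ℝ) * ((T : ℝ) - cs h a true u T A) ≤
            #(h.N true u) * (((T' : ℝ) - cs h a true u T' A) + (R - 1)) :=
          mul_le_mul_of_nonneg_left h4 hn.le
        have h6 : (#(h.N true u) : ℝ) * (R - 1) ≤
            2 * (∑ w ∈ h.N true u, br2_I h a T u w A) * (R - 1) :=
          mul_le_mul_of_nonneg_right h2 (by linarith)
        nlinarith
  · rw [heq, sub_self, mul_zero]
    have h2 : 0 ≤ 2 * (R : ℝ) * ∑ w ∈ h.N true u, br2_I h a T u w A := by positivity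
    have h3 : (0 : ℝ) ≤ R * (if X h a true u A = ∅ then 1 else 0) := by
      split_ifs <;> simp
    have h4 : (0 : ℝ) ≤ #(h.N true u) * ((T' : ℝ) - cs h a true u T' A) := mul_nonneg hn.le hC
    have h5 : (0 : ℝ) ≤ #(h.N true u) * (R * (if X h a true u A = ∅ then 1 else 0)) :=
      mul_nonneg hn.le h3
    linarith

theorem st_BR2 (hI : ST_INF) : ST_BR2 := by
  intro V _ _ p _ h D hD hp2 hg a T T' R θ h0 h1 hR hRD hTp hT' hT
  classical
  -- the three influences
  have i1 : ave h true (fun u w => EE θ fun A => (cs h a true u T (insert w A) : ℝ) -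
      cs h a true u T (A.erase w)) ≤ T / (θ * D) :=
    ave_infl hI hD hg true h0 h1 (fun u A => (cs h a true u T A : ℝ))
      (fun u A B hAB => by exact_mod_cast cs_mono h a true u T hAB) (fun _ _ => by positivity)
      (fun u A => by exact_mod_cast cs_le h a true u T A)
  have i2 : ave h true (fun u w => EE θ fun A =>
      (cs h (RT.cons a RT.nil) false w T (insert u A) : ℝ) -
      cs h (RT.cons a RT.nil) false w T (A.erase u)) ≤ T / (θ * D) := by
    rw [ave_swap]
    exact ave_infl hI hD hg false h0 h1
      (fun w A => (cs h (RT.cons a RT.nil) false w T A : ℝ))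
      (fun u A B hAB => by exact_mod_cast cs_mono h _ false u T hAB) (fun _ _ => by positivity)
      (fun u A => by exact_mod_cast cs_le h _ false u T A)
  have i3 : ave h true (fun u w => EE θ fun A =>
      (cs h (RT.cons (RT.cons a RT.nil) RT.nil) true u T (insert w A) : ℝ) -
      cs h (RT.cons (RT.cons a RT.nil) RT.nil) true u T (A.erase w)) ≤ T / (θ * D) :=
    ave_infl hI hD hg true h0 h1
      (fun u A => (cs h (RT.cons (RT.cons a RT.nil) RT.nil) true u T A : ℝ))
      (fun u A B hAB => by exact_mod_cast cs_mono h _ true u T hAB) (fun _ _ => by positivity)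
      (fun u A => by exact_mod_cast cs_le h _ true u T A)
  have i4 : ave h true (fun u w => EE θ fun A => br2_I h a T u w A) ≤ 3 * (T / (θ * D)) := by
    unfold br2_I
    simp only [EE_add]
    rw [ave_add, ave_add]
    linarith
  have key : DF h θ (RT.cons (RT.cons a RT.nil) RT.nil) true T ≤
      ave h true (fun u w => (EE θ (fun A => (T' : ℝ) - cs h a true u T' A) +
        2 * R * EE θ (fun A => br2_I h a T u w A)) +
        R * EE θ (fun A => if X h a true u A = ∅ then 1 else 0)) := by
    unfold DF
    refine br2_av_le_ave fun u hu => ?_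
    rw [← EE_mul]
    have := EE_mono h0.le h1 (fun A => br2_point h hp2 hg a hR hRD hTp hT' hT hu A)
    refine this.trans (le_of_eq ?_)
    rw [EE_sum]
    refine sum_congr rfl fun w _ => ?_
    rw [EE_add, EE_add, EE_mul, EE_mul]
  refine key.trans ?_
  rw [ave_add, ave_add, ave_mul, ave_left, ave_left, av_mul]
  have h5 : 2 * (R : ℝ) * ave h true (fun u w => EE θ fun A => br2_I h a T u w A) ≤
      2 * R * (3 * (T / (θ * D))) := mul_le_mul_of_nonneg_left i4 (by positivity)
  have h6 : 2 * (R : ℝ) * (3 * (T / (θ * D))) = 6 * R * T / (θ * D) := by ring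
  rw [h6] at h5
  unfold DF
  linarith

end ZS
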