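import Pool.Agent.Helper99.ZS.Lib

set_option autoImplicit false

/-!
MP_98699e_co, module CNT: at least half of the vertices have at most one child.
-/

open Finset

namespace ZS

/-- number of children of the root -/
def cnt_ch : RT → ℕ
  | RT.nil => 0
  | RT.cons _ b => cnt_ch b + 1

open Classical in
theorem cnt_small : ∀ a : RT, 2 ≤ cnt_ch a + 2 * (if a.small then 1 else 0)
  | RT.nil => by simp [RT.small]
  | RT.cons _ RT.nil => by simp [RT.small, cnt_ch]
  | RT.cons _ (RT.cons _ _) => by
    simp only [cnt_ch]
    omega

theorem cnt_main : ∀ t : RT, t.e + cnt_ch t ≤ 2 * (t.g true + t.g false)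
  | RT.nil => by simp [RT.e, RT.g, cnt_ch]
  | RT.cons a b => by
    classical
    have h1 := cnt_main a
    have h2 := cnt_main b
    have h3 := cnt_small a
    simp only [RT.e, RT.g, cnt_ch, Bool.not_true, Bool.not_false, true_and, Bool.false_eq_true,
      false_and, if_false]
    omega

theorem st_CNT : ST_CNT := fun t => (Nat.le_add_right _ _).trans (cnt_main t)

end ZS
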