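import Mathlib

set_option autoImplicit false

/-!
MP_98699e_co: zero-sum copies of trees, linear minimum degree, prime modulus.
Definitions (blueprint /team-store/zs_blueprint.md).
-/

open Finset

noncomputable section

namespace ZS

/-! ### Rooted trees -/

/-- Rooted ordered trees: `nil` is the single vertex, `cons a b` is the rooted tree `b` with one
more child of the root, this child being the root of `a`. -/
inductive RT : Type
  | nil : RT
  | cons : RT → RT → RT

namespace RT

/-- number of edges -/
def e : RT → ℕ
  | nil => 0
  | cons a b => e a + e b + 1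

/-- merge two rooted trees at their roots -/
def app : RT → RT → RT
  | nil, t => t
  | cons a b, t => cons a (app b t)

/-- the root has at most one child -/
def small : RT → Prop
  | nil => True
  | cons _ nil => True
  | cons _ (cons _ _) => False

open Classical in
/-- number of non-root vertices with at most one child whose parent is on the side `true`;
`s` is the side of the root -/
def g : Bool → RT → ℕ
  | _, nil => 0
  | s, cons a b => g (!s) a + g s b + if s = true ∧ small a then 1 else 0

end RT

/-! ### Random sets -/

variable {V : Type} [Fintype V] [DecidableEq V]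

/-- expectation of `F A`, `A` a random set containing every vertex with probability `q` -/
def E (q : ℝ) (F : Finset V → ℝ) : ℝ :=
  ∑ A : Finset V, q ^ #A * (1 - q) ^ (Fintype.card V - #A) * F A

/-- expectation of `F A B`, `A` and `B` disjoint random sets of densities `q` and `r` -/
def E2 (q r : ℝ) (F : Finset V → Finset V → ℝ) : ℝ :=
  ∑ A : Finset V, ∑ B : Finset V, if Disjoint A B then
    q ^ #A * r ^ #B * (1 - q - r) ^ (Fintype.card V - #A - #B) * F A B else 0

/-- average over the densities in `[θ, 2 θ]` -/
def EE (θ : ℝ) (F : Finset V → ℝ) : ℝ := ∫ α in (1 : ℝ)..2, E (α * θ) F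

/-- average over the pairs of densities `(α θ₁, α θ₂)`, `1 ≤ α ≤ 2` -/
def EE2 (θ₁ θ₂ : ℝ) (F : Finset V → Finset V → ℝ) : ℝ :=
  ∫ α in (1 : ℝ)..2, E2 (α * θ₁) (α * θ₂) F

/-! ### Hosts -/

/-- A two-sided host: `B x w` means that `x` (side `true`) is joined to `w` (side `false`). The same
vertex may occur on both sides. -/
structure Host (V : Type) (p : ℕ) where
  B : V → V → Prop
  c : V → V → ZMod p
  symm : ∀ x y, c x y = c y x
  ne : ∀ x y, B x y → x ≠ y

variable {p : ℕ}

open Classical in
/-- neighbours of `x`, considered as a vertex of the side `s` -/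
def Host.N (h : Host V p) (s : Bool) (x : V) : Finset V :=
  univ.filter fun w => if s = true then h.B x w else h.B w x

open Classical in
/-- minimum degree `D` on both sides, and every vertex of the side `true` sees every colour fewer
than `p` times -/
structure Host.Good (h : Host V p) (D : ℕ) : Prop where
  nonempty : ∃ x, (h.N true x).Nonempty
  deg : ∀ s x, (h.N s x).Nonempty → D ≤ #(h.N s x)
  col : ∀ x a, #{w ∈ h.N true x | h.c x w = a} < p

/-- `φ` is the set of non-root vertices of an embedding of `t` with root `u` on the side `s`, and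
`x` is the sum of the colours of its edges -/
def Emb (h : Host V p) : RT → Bool → V → Finset V → ZMod p → Prop
  | RT.nil, _, _, φ, x => φ = ∅ ∧ x = 0
  | RT.cons a b, s, u, φ, x => ∃ (w : V) (φa φb : Finset V) (y z : ZMod p),
      w ∈ h.N s u ∧ Emb h a (!s) w φa y ∧ Emb h b s u φb z ∧
      u ∉ φa ∧ w ∉ φb ∧ Disjoint φa φb ∧ φ = insert w (φa ∪ φb) ∧ x = h.c u w + y + z

open Classical in
/-- sums of the embeddings of `t` with root `u` and all other vertices in `A` -/
def X [NeZero p] (h : Host V p) (t : RT) (s : Bool) (u : V) (A : Finset V) : Finset (ZMod p) :=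
  univ.filter fun x => ∃ φ, φ ⊆ A ∧ Emb h t s u φ x

/-- number of sums, capped at `T` -/
def cs [NeZero p] (h : Host V p) (t : RT) (s : Bool) (u : V) (T : ℕ) (A : Finset V) : ℕ :=
  min (#(X h t s u A)) T

/-- average over the vertices of the side `s`, weighted by the degree -/
def av (h : Host V p) (s : Bool) (f : V → ℝ) : ℝ :=
  (∑ x, (#(h.N s x) : ℝ) * f x) / ∑ x, (#(h.N s x) : ℝ)

/-- average deficit -/
def DF [NeZero p] (h : Host V p) (θ : ℝ) (t : RT) (s : Bool) (T : ℕ) : ℝ :=
  av h s fun u => EE θ fun A => (T : ℝ) - cs h t s u T A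

open Classical in
/-- probability that there is no embedding -/
def em [NeZero p] (h : Host V p) (q : ℝ) (t : RT) (s : Bool) : ℝ :=
  av h s fun u => E q fun A => if X h t s u A = ∅ then 1 else 0

/-- target -/
def Tg (p : ℕ) (s : Bool) (t : RT) : ℕ := min p (1 + 17 * t.g s)

/-! ### Trees as graphs -/

variable {τ : Type} [DecidableEq τ]

/-- the induced subtree of `T` on `I` with root `r` has the shape `t` -/
inductive Codes (T : SimpleGraph τ) : RT → Finset τ → τ → Prop
  | nil (r : τ) : Codes T RT.nil {r} r
  | cons (a b : RT) (I J : Finset τ) (r r' : τ) : Codes T a I r' → Codes T b J r →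
      Disjoint I J → T.Adj r r' → (∀ x ∈ I, ∀ y ∈ J, T.Adj x y → x = r' ∧ y = r) →
      Codes T (RT.cons a b) (I ∪ J) r

end ZS
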