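import Pool.Agent.Helper99.ZS.Lib

set_option autoImplicit false

/-!
MP_98699e_co, module EMON: monotonicity of the expectation in the density.
-/

open Finset MeasureTheory

noncomputable section

namespace ZS

theorem st_EMON (h : ST_E2M) : ST_EMON := by
  intro V _ _ q r hq hqr hr F hF
  obtain ⟨h1, -, h3, -⟩ := h V q (r - q) hq (by linarith) (by linarith)
  have h4 := h3 F
  rw [show q + (r - q) = r by ring] at h4
  rw [← h4, ← h1 F]
  exact E2_mono hq (by linarith) (by linarith) fun A B _ => hF A (A ∪ B) subset_union_left

end ZS
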