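import Pool.Agent.Helper99.ZS.Lib

set_option autoImplicit false

/-!
MP_98699e_co, module FALL: conditioning on the second random set.
-/

open Finset MeasureTheory

noncomputable section

namespace ZS

theorem fall_E_int {V : Type} [Fintype V] [DecidableEq V] (q θ : ℝ)
    (F : Finset V → Finset V → ℝ) :
    (∫ α in (1 : ℝ)..2, E q fun a => E (α * θ) (F a)) = E q fun a => EE θ (F a) := by
  unfold EE
  rw [show (fun α : ℝ => E q fun a => E (α * θ) (F a)) = fun α : ℝ => ∑ A : Finset V,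
    q ^ #A * (1 - q) ^ (Fintype.card V - #A) * E (α * θ) (F A) from rfl]
  rw [intervalIntegral.integral_finsetSum]
  · unfold E
    exact sum_congr rfl fun A _ => intervalIntegral.integral_const_mul _ _
  · exact fun A _ => (EE_int θ (F A)).const_mul _

theorem st_FALL (h1 : ST_EMON) (h2 : ST_COND) (h3 : ST_E2M) : ST_FALL := by
  intro V _ _ θ₁ θ₂ hθ1 hθ2 h14 h24 H _ hanti
  rw [← fall_E_int]
  unfold EE2
  refine intervalIntegral.integral_mono_on (by norm_num) (EE2_int θ₁ θ₂ H) ?_ ?_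
  · refine Continuous.intervalIntegrable ?_ _ _
    unfold E
    fun_prop
  · intro α hα
    obtain ⟨ha1, ha2⟩ := hα
    have hq0 : 0 ≤ α * θ₁ := by nlinarith
    have hq1 : α * θ₁ ≤ 1 / 2 := by nlinarith
    have hr0 : 0 ≤ α * θ₂ := by nlinarith
    have hr1 : α * θ₂ ≤ 1 / 2 := by nlinarith
    have hrr : θ₂ ≤ α * θ₂ := by nlinarith
    have hpos : 0 < 1 - α * θ₁ := by linarith
    have e1 : E2 (α * θ₁) (α * θ₂) H ≤ E2 (α * θ₁) θ₂ H := by
      rw [(h3 V (α * θ₁) (α * θ₂) hq0 hr0 (by linarith)).2.2.2 H,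
        (h3 V (α * θ₁) θ₂ hq0 hθ2 (by linarith)).2.2.2 H,
        h2 V (α * θ₂) (α * θ₁) (by linarith), h2 V θ₂ (α * θ₁) (by linarith)]
      refine E_mono hq0 (by linarith) fun a => ?_
      refine h1 V (θ₂ / (1 - α * θ₁)) (α * θ₂ / (1 - α * θ₁)) (by positivity) ?_ ?_
        (fun B => H a (B \ a)) ?_
      · exact div_le_div_of_nonneg_right hrr hpos.le
      · rw [div_le_one hpos]; linarith
      · intro A B hAB
        exact hanti a _ _ (sdiff_subset_sdiff hAB Subset.rfl)
    refine e1.trans (le_of_eq ?_)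
    rw [h2 V (α * θ₁) θ₂ (by linarith) H, ← mul_div_assoc]

end ZS
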