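import Pool.Agent.Helper99.ZS.Lib

set_option autoImplicit false

/-!
MP_98699e_co, module FIN: the two halves of the tree.
-/

open Finset MeasureTheory

noncomputable section

namespace ZS

theorem fin_zero {p : ℕ} [NeZero p] {X₁ X₂ : Finset (ZMod p)} (h : p < #X₁ + #X₂) :
    ∃ x ∈ X₁, ∃ y ∈ X₂, x + y = 0 := by
  by_contra hcon
  push Not at hcon
  have hd : Disjoint X₁ (X₂.image fun y => -y) := by
    rw [disjoint_left]
    intro x hx hx2
    rw [mem_image] at hx2
    obtain ⟨y, hy, rfl⟩ := hx2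
    exact hcon _ hx y hy (by ring)
  have h1 := card_le_univ (X₁ ∪ X₂.image fun y => -y)
  rw [card_union_of_disjoint hd, card_image_of_injective _ neg_injective, ZMod.card] at h1
  omega

theorem st_FIN (hM : ST_E2M) : ST_FIN := by
  intro V _ _ p _ h D hD hg t₁ t₂ s θ₁ θ₂ h1 h2 h12 hDF
  by_contra hcon
  push Not at hcon
  have key : ∀ (u : V) (A B : Finset V), Disjoint A B →
      (p : ℝ) ≤ ((p : ℝ) - cs h t₁ s u p A) + ((p : ℝ) - cs h t₂ s u p B) := by
    intro u A B hAB
    by_contra hlt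
    push Not at hlt
    have h3 : (p : ℝ) < cs h t₁ s u p A + cs h t₂ s u p B := by linarith
    have h4 : p < cs h t₁ s u p A + cs h t₂ s u p B := by exact_mod_cast h3
    have h5 := cs_le_card h t₁ s u p A
    have h6 := cs_le_card h t₂ s u p B
    obtain ⟨x, hx, y, hy, hxy⟩ := fin_zero (X₁ := X h t₁ s u A) (X₂ := X h t₂ s u B) (by omega)
    have h7 := X_app h t₁ t₂ s u hAB hx hy
    rw [hxy, mem_X] at h7
    obtain ⟨φ, -, hφ⟩ := h7
    exact hcon u φ hφ
  have key2 : ∀ u : V, (p : ℝ) ≤ EE θ₁ (fun A => (p : ℝ) - cs h t₁ s u p A) +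
      EE θ₂ (fun A => (p : ℝ) - cs h t₂ s u p A) := by
    intro u
    rw [← EE2_left hM h1 h2 h12, ← EE2_right hM h1 h2 h12, ← EE2_add]
    refine le_trans (le_of_eq ?_) (EE2_mono h1 h2 h12 (F := fun _ _ => (p : ℝ)) (key u))
    rw [EE2_left hM h1 h2 h12 (fun _ => (p : ℝ)), EE_const]
  have key3 := av_mono (h := h) (s := s) (fun u _ => key2 u)
  rw [av_const hg s, av_add] at key3
  unfold DF at hDF
  linarith

end ZS
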