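import Pool.Agent.Helper99.ZS.Lib

set_option autoImplicit false

/-!
MP_98699e_co, module HAR: antitone functions and the event that a vertex is available.
-/

open Finset

noncomputable section

namespace ZS

theorem st_HAR : ST_HAR := by
  intro V _ _ q hq0 hq1 w F hF
  have hw : w ∉ (univ : Finset V).erase w := notMem_erase w univ
  have hsplit : ∀ f : Finset V → ℝ, ∑ A : Finset V, f A =
      ∑ A ∈ ((univ : Finset V).erase w).powerset, (f A + f (insert w A)) := by
    intro f
    rw [sum_add_distrib, ← sum_powerset_insert hw, insert_erase (mem_univ w), powerset_univ]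
  unfold E
  rw [hsplit, hsplit, mul_sum]
  refine sum_le_sum fun A hA => ?_
  rw [mem_powerset] at hA
  have hwA : w ∉ A := fun h => hw (hA h)
  have hc : #A + 1 ≤ Fintype.card V := by
    have := card_le_card hA
    rw [card_erase_of_mem (mem_univ w), card_univ] at this
    have h0 : 0 < Fintype.card V := Fintype.card_pos_iff.2 ⟨w⟩
    omega
  obtain ⟨k, hk⟩ : ∃ k, Fintype.card V = #A + 1 + k := ⟨Fintype.card V - (#A + 1), by omega⟩
  simp only
  rw [if_neg hwA, if_pos (mem_insert_self w A), card_insert_of_notMem hwA, hk]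
  rw [show #A + 1 + k - #A = k + 1 by omega, show #A + 1 + k - (#A + 1) = k by omega]
  have h1 : F (insert w A) ≤ F A := hF A _ (subset_insert w A)
  have h2 : 0 ≤ 1 - q := by linarith
  have h3 : 0 ≤ q ^ #A * (1 - q) ^ k * q * (1 - q) * (F A - F (insert w A)) := by
    have : 0 ≤ F A - F (insert w A) := by linarith
    positivity
  have h4 : q * (q ^ #A * (1 - q) ^ (k + 1) * F A + q ^ (#A + 1) * (1 - q) ^ k * F (insert w A)) -
      (q ^ #A * (1 - q) ^ (k + 1) * 0 + q ^ (#A + 1) * (1 - q) ^ k * F (insert w A)) =
      q ^ #A * (1 - q) ^ k * q * (1 - q) * (F A - F (insert w A)) := by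
    ring
  linarith

end ZS
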