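import Pool.Agent.Helper99.ZS.Lib

set_option autoImplicit false

/-!
MP_98699e_co, module HOST: a graph of large minimum degree contains a host.
-/

open Finset

noncomputable section

namespace ZS

open Classical in
/-- elimination order -/
theorem host_rank {V : Type} [Fintype V] [DecidableEq V] (Q : V → V → Prop) (p : ℕ)
    (hQ : ∀ W : Finset V, W.Nonempty → ∃ v ∈ W, #{w ∈ W | Q v w} < p) :
    ∀ (n : ℕ) (S : Finset V), #S = n → ∃ ρ : V → ℕ, Set.InjOn ρ S ∧
      ∀ v ∈ S, #{w ∈ S | Q v w ∧ ρ v < ρ w} < p
  | 0, S, hS => by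
    rw [card_eq_zero] at hS
    subst hS
    exact ⟨fun _ => 0, by simp, by simp⟩
  | n + 1, S, hS => by
    obtain ⟨v, hv, hvp⟩ := hQ S (card_pos.1 (by omega))
    obtain ⟨ρ, h1, h2⟩ := host_rank Q p hQ n (S.erase v) (by rw [card_erase_of_mem hv]; omega)
    refine ⟨fun x => if x = v then 0 else ρ x + 1, ?_, ?_⟩
    · intro x hx y hy hxy
      simp only at hxy
      split_ifs at hxy with h3 h4 h4
      · rw [h3, h4]
      · refine h1 ?_ ?_ (by omega)
        · rw [mem_coe, mem_erase]; exact ⟨h3, hx⟩
        · rw [mem_coe, mem_erase]; exact ⟨h4, hy⟩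
    · intro x hx
      by_cases hxv : x = v
      · subst hxv
        refine lt_of_le_of_lt (card_le_card ?_) hvp
        intro w hw
        rw [mem_filter] at hw ⊢
        exact ⟨hw.1, hw.2.1⟩
      · refine lt_of_le_of_lt (card_le_card ?_) (h2 x (mem_erase.2 ⟨hxv, hx⟩))
        intro w hw
        rw [mem_filter] at hw ⊢
        obtain ⟨hw1, hw2, hw3⟩ := hw
        simp only at hw3
        rw [if_neg hxv] at hw3
        by_cases hwv : w = v
        · rw [if_pos hwv] at hw3
          omega
        · rw [if_neg hwv] at hw3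
          exact ⟨mem_erase.2 ⟨hwv, hw1⟩, hw2, by omega⟩

open Classical in
/-- a bipartite graph with many edges contains a bipartite graph of large minimum degree -/
theorem host_core {V : Type} [Fintype V] [DecidableEq V] (O : V → V → Prop) (D : ℕ)
    (hO : 2 * D * Fintype.card V < ∑ x : V, #{w | O x w}) :
    ∃ L R : Finset V, (∃ x ∈ L, ∃ w ∈ R, O x w) ∧ (∀ x ∈ L, D ≤ #{w ∈ R | O x w}) ∧
      ∀ w ∈ R, D ≤ #{x ∈ L | O x w} := by
  let val : Finset V × Finset V → ℤ := fun P =>
    (∑ x ∈ P.1, (#{w ∈ P.2 | O x w} : ℤ)) - D * (#P.1 + #P.2)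
  have hval2 : ∀ P, val P = (∑ w ∈ P.2, (#{x ∈ P.1 | O x w} : ℤ)) - D * (#P.1 + #P.2) := by
    intro P
    have := sum_card_bipartiteAbove_eq_sum_card_bipartiteBelow (s := P.1) (t := P.2) O
    unfold bipartiteAbove bipartiteBelow at this
    simp only [val]
    congr 1
    exact_mod_cast this
  obtain ⟨⟨L, R⟩, -, hmax⟩ := exists_max_image (univ : Finset (Finset V × Finset V)) val
    ⟨(∅, ∅), mem_univ _⟩
  have hpos : 0 < val (L, R) := by
    refine lt_of_lt_of_le ?_ (hmax (univ, univ) (mem_univ _))
    simp only [val, card_univ]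
    have : ((2 * D * Fintype.card V : ℕ) : ℤ) < ((∑ x : V, #{w | O x w} : ℕ) : ℤ) := by
      exact_mod_cast hO
    push_cast at this
    linarith
  refine ⟨L, R, ?_, ?_, ?_⟩
  · by_contra hcon
    push Not at hcon
    have : ∑ x ∈ L, (#{w ∈ R | O x w} : ℤ) = 0 := by
      refine sum_eq_zero fun x hx => ?_
      have : #{w ∈ R | O x w} = 0 := by
        rw [card_eq_zero, filter_eq_empty_iff]
        exact fun w hw => hcon x hx w hw
      exact_mod_cast this
    simp only [val] at hpos
    rw [this] at hpos
    have : (0 : ℤ) ≤ D * (#L + #R) := by positivity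
    linarith
  · intro x hx
    have h1 := hmax (L.erase x, R) (mem_univ _)
    simp only [val] at h1
    rw [← sum_erase_add L _ hx] at h1
    have h2 : #(L.erase x) + 1 = #L := card_erase_add_one hx
    have h3 : (#L : ℤ) = #(L.erase x) + 1 := by exact_mod_cast h2.symm
    rw [h3] at h1
    have : (D : ℤ) ≤ #{w ∈ R | O x w} := by linarith
    exact_mod_cast this
  · intro w hw
    have h1 := hmax (L, R.erase w) (mem_univ _)
    rw [hval2, hval2] at h1
    simp only at h1
    rw [← sum_erase_add R _ hw] at h1
    have h2 : #(R.erase w) + 1 = #R := card_erase_add_one hw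
    have h3 : (#R : ℤ) = #(R.erase w) + 1 := by exact_mod_cast h2.symm
    rw [h3] at h1
    have : (D : ℤ) ≤ #{x ∈ L | O x w} := by linarith
    exact_mod_cast this

theorem st_HOST : ST_HOST := by
  intro V _ _ _ p _ G _ c hc hG
  classical
  have hp : 0 < p := (Fact.out : p.Prime).pos
  by_cases hmono : ∃ (a : ZMod p) (W : Finset V), W.Nonempty ∧
      ∀ v ∈ W, p ≤ #{w ∈ W | G.Adj v w ∧ c v w = a}
  · exact Or.inl hmono
  · right
    push Not at hmono
    have hr : ∀ a : ZMod p, ∃ ρ : V → ℕ, Function.Injective ρ ∧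
        ∀ v, #{w | (G.Adj v w ∧ c v w = a) ∧ ρ v < ρ w} < p := by
      intro a
      obtain ⟨Q, hQ⟩ : ∃ Q : V → V → Prop, ∀ v w, Q v w ↔ (G.Adj v w ∧ c v w = a) :=
        ⟨_, fun _ _ => Iff.rfl⟩
      have h0 := hmono a
      simp only [← hQ] at h0 ⊢
      obtain ⟨ρ, h1, h2⟩ := host_rank Q p
        (fun W hW => by
          obtain ⟨v, hv, h3⟩ := h0 W hW
          refine ⟨v, hv, lt_of_le_of_lt (card_le_card ?_) h3⟩
          intro w hw
          simpa using hw) (#(univ : Finset V)) univ rfl
      refine ⟨ρ, fun x y hxy => h1 (by simp) (by simp) hxy, fun v => ?_⟩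
      refine lt_of_le_of_lt (card_le_card ?_) (h2 v (mem_univ v))
      intro w hw
      simpa using hw
    choose ρ hρ1 hρ2 using hr
    obtain ⟨O, hO⟩ : ∃ O : V → V → Prop, ∀ x w, O x w ↔
      G.Adj x w ∧ ρ (c x w) x < ρ (c x w) w := ⟨_, fun _ _ => Iff.rfl⟩
    have hsum : 2 * ∑ x : V, #{w | O x w} = ∑ x : V, G.degree x := by
      have h1 : ∑ x : V, #{w | O x w} = ∑ x : V, #{w | O w x} := by
        have := sum_card_bipartiteAbove_eq_sum_card_bipartiteBelow (s := (univ : Finset V))
          (t := univ) O
        unfold bipartiteAbove bipartiteBelow at this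
        exact this
      have h2 : ∀ x : V, G.degree x = #{w | O x w} + #{w | O w x} := by
        intro x
        rw [← card_union_of_disjoint]
        · unfold SimpleGraph.degree
          congr 1
          ext w
          rw [SimpleGraph.mem_neighborFinset, mem_union, mem_filter, mem_filter]
          simp only [mem_univ, true_and, hO]
          constructor
          · intro hxw
            have hne : ρ (c x w) x ≠ ρ (c x w) w := fun h => hxw.ne (hρ1 _ h)
            rcases lt_or_gt_of_ne hne with h | h
            · exact Or.inl ⟨hxw, h⟩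
            · right
              rw [hc w x]
              exact ⟨hxw.symm, h⟩
          · rintro (h | h)
            · exact h.1
            · exact h.1.symm
        · rw [disjoint_filter]
          intro w _ hw1 hw2
          rw [hO] at hw1 hw2
          rw [hc w x] at hw2
          omega
      rw [two_mul]
      conv_lhs => rhs; rw [h1]
      rw [← sum_add_distrib]
      exact (sum_congr rfl fun x _ => h2 x).symm
    have hcard : 65536 * p * Fintype.card V ≤ ∑ x : V, G.degree x := by
      have := card_nsmul_le_sum (univ : Finset V) (fun x => G.degree x) (65536 * p)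
        (fun x _ => hG x)
      rw [card_univ, smul_eq_mul] at this
      linarith
    have hV : 0 < Fintype.card V := Fintype.card_pos
    obtain ⟨L, R, hne, hL, hR⟩ := host_core O (8192 * p) (by
      have : 0 < p * Fintype.card V := Nat.mul_pos hp hV
      have h3 : 2 * (8192 * p) * Fintype.card V = 16384 * (p * Fintype.card V) := by ring
      have h4 : 65536 * p * Fintype.card V = 65536 * (p * Fintype.card V) := by ring
      rw [h3]
      rw [h4, ← hsum] at hcard
      refine lt_of_lt_of_le (b := 32768 * (p * Fintype.card V)) (by omega) (by omega))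
    let h : Host V p :=
      { B := fun x w => x ∈ L ∧ w ∈ R ∧ O x w
        c := c
        symm := hc
        ne := fun x y hxy => ((hO _ _).1 hxy.2.2).1.ne }
    have hN1 : ∀ x, x ∈ L → h.N true x = {w ∈ R | O x w} := by
      intro x hx
      ext w
      rw [mem_N_true, mem_filter]
      simp only [h]
      tauto
    have hN0 : ∀ w, w ∈ R → h.N false w = {x ∈ L | O x w} := by
      intro x hx
      ext w
      rw [mem_N_false, mem_filter]
      simp only [h]
      tauto
    refine ⟨h, ⟨?_, ?_, ?_⟩, rfl, fun x y hxy => ((hO _ _).1 hxy.2.2).1⟩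
    · obtain ⟨x, hx, w, hw, hxw⟩ := hne
      refine ⟨x, w, ?_⟩
      rw [mem_N_true]
      exact ⟨hx, hw, hxw⟩
    · intro s x hx
      obtain ⟨w, hw⟩ := hx
      cases s
      · rw [mem_N_false] at hw
        rw [hN0 x hw.2.1]
        exact hR x hw.2.1
      · rw [mem_N_true] at hw
        rw [hN1 x hw.1]
        exact hL x hw.1
    · intro x a
      refine lt_of_le_of_lt (card_le_card ?_) (hρ2 a x)
      intro w hw
      rw [mem_filter] at hw ⊢
      rw [mem_N_true] at hw
      obtain ⟨hw1, hw2⟩ := hw
      have hw3 : c x w = a := hw2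
      have hw4 := (hO _ _).1 hw1.2.2
      refine ⟨mem_univ _, ⟨hw4.1, hw3⟩, ?_⟩
      have := hw4.2
      rw [hw3] at this
      exact this

end ZS
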