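import Pool.Agent.Helper99.ZS.Stmts

set_option autoImplicit false
set_option linter.unusedSectionVars false

/-!
MP_98699e_co: library of the modules.
-/

open Finset MeasureTheory

noncomputable section

namespace ZS

/-! ### expectations -/

section prob
variable {V : Type} [Fintype V] [DecidableEq V]

theorem E_add (q : ℝ) (F G : Finset V → ℝ) : E q (fun A => F A + G A) = E q F + E q G := by
  unfold E
  rw [← sum_add_distrib]
  exact sum_congr rfl fun A _ => by ring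

theorem E_sub (q : ℝ) (F G : Finset V → ℝ) : E q (fun A => F A - G A) = E q F - E q G := by
  unfold E
  rw [← sum_sub_distrib]
  exact sum_congr rfl fun A _ => by ring

theorem E_mul (q c : ℝ) (F : Finset V → ℝ) : E q (fun A => c * F A) = c * E q F := by
  unfold E
  rw [mul_sum]
  exact sum_congr rfl fun A _ => by ring

theorem E_sum {ι : Type} (q : ℝ) (S : Finset ι) (F : ι → Finset V → ℝ) :
    E q (fun A => ∑ i ∈ S, F i A) = ∑ i ∈ S, E q (F i) := by
  unfold E
  rw [sum_comm]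
  exact sum_congr rfl fun A _ => by rw [mul_sum]

theorem E_one (q : ℝ) : E q (fun _ : Finset V => 1) = 1 := by
  unfold E
  have h := Fintype.sum_pow_mul_eq_add_pow V q (1 - q)
  rw [show q + (1 - q) = 1 by ring, one_pow] at h
  refine Eq.trans ?_ h
  exact sum_congr rfl fun A _ => mul_one _

theorem E_const (q c : ℝ) : E q (fun _ : Finset V => c) = c := by
  have := E_mul q c (fun _ : Finset V => 1)
  rw [E_one] at this
  simpa using this

theorem E_mono {q : ℝ} (h0 : 0 ≤ q) (h1 : q ≤ 1) {F G : Finset V → ℝ} (h : ∀ A, F A ≤ G A) :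
    E q F ≤ E q G := by
  unfold E
  refine sum_le_sum fun A _ => mul_le_mul_of_nonneg_left (h A) ?_
  have : 0 ≤ 1 - q := by linarith
  positivity

theorem E_nonneg {q : ℝ} (h0 : 0 ≤ q) (h1 : q ≤ 1) {F : Finset V → ℝ} (h : ∀ A, 0 ≤ F A) :
    0 ≤ E q F := by
  have := E_mono h0 h1 h
  rwa [E_const] at this

theorem E_cont (F : Finset V → ℝ) : Continuous fun q : ℝ => E q F := by
  unfold E; fun_prop

theorem EE_int (θ : ℝ) (F : Finset V → ℝ) :
    IntervalIntegrable (fun α : ℝ => E (α * θ) F) volume 1 2 :=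
  ((E_cont F).comp (continuous_id.mul continuous_const)).intervalIntegrable _ _

theorem EE_add (θ : ℝ) (F G : Finset V → ℝ) :
    EE θ (fun A => F A + G A) = EE θ F + EE θ G := by
  unfold EE
  rw [← intervalIntegral.integral_add (EE_int θ F) (EE_int θ G)]
  exact intervalIntegral.integral_congr fun α _ => E_add _ F G

theorem EE_sub (θ : ℝ) (F G : Finset V → ℝ) :
    EE θ (fun A => F A - G A) = EE θ F - EE θ G := by
  unfold EE
  rw [← intervalIntegral.integral_sub (EE_int θ F) (EE_int θ G)]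
  exact intervalIntegral.integral_congr fun α _ => E_sub _ F G

theorem EE_mul (θ c : ℝ) (F : Finset V → ℝ) : EE θ (fun A => c * F A) = c * EE θ F := by
  unfold EE
  rw [← intervalIntegral.integral_const_mul]
  exact intervalIntegral.integral_congr fun α _ => E_mul _ c F

theorem EE_sum {ι : Type} (θ : ℝ) (S : Finset ι) (F : ι → Finset V → ℝ) :
    EE θ (fun A => ∑ i ∈ S, F i A) = ∑ i ∈ S, EE θ (F i) := by
  unfold EE
  rw [← intervalIntegral.integral_finsetSum fun i _ => EE_int θ (F i)]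
  exact intervalIntegral.integral_congr fun α _ => E_sum _ S F

theorem EE_const (θ c : ℝ) : EE θ (fun _ : Finset V => c) = c := by
  unfold EE
  have : ∀ α : ℝ, E (α * θ) (fun _ : Finset V => c) = c := fun α => E_const _ c
  simp only [this, intervalIntegral.integral_const, smul_eq_mul]
  ring

theorem EE_mono {θ : ℝ} (h0 : 0 ≤ θ) (h1 : 2 * θ ≤ 1) {F G : Finset V → ℝ}
    (h : ∀ A, F A ≤ G A) : EE θ F ≤ EE θ G := by
  unfold EE
  refine intervalIntegral.integral_mono_on (by norm_num) (EE_int θ F) (EE_int θ G) ?_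
  intro α hα
  exact E_mono (by nlinarith [hα.1]) (by nlinarith [hα.2]) h

theorem EE_nonneg {θ : ℝ} (h0 : 0 ≤ θ) (h1 : 2 * θ ≤ 1) {F : Finset V → ℝ} (h : ∀ A, 0 ≤ F A) :
    0 ≤ EE θ F := by
  have := EE_mono h0 h1 h
  rwa [EE_const] at this

/-- antitone functions: the average over the densities in `[θ, 2 θ]` is at most the value at any
smaller density -/
theorem EE_le_E (hM : ST_EMON) {θ q : ℝ} (h0 : 0 ≤ q) (hq : q ≤ θ) (h1 : 2 * θ ≤ 1)
    {F : Finset V → ℝ} (h : ∀ A B, A ⊆ B → F B ≤ F A) : EE θ F ≤ E q F := by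
  have h2 : EE θ F ≤ ∫ _ in (1 : ℝ)..2, E q F := by
    unfold EE
    refine intervalIntegral.integral_mono_on (by norm_num) (EE_int θ F) (by simp) ?_
    intro α hα
    exact hM V q (α * θ) h0 (by nlinarith [hα.1]) (by nlinarith [hα.2]) F h
  refine h2.trans (le_of_eq ?_)
  rw [intervalIntegral.integral_const, smul_eq_mul]
  ring

/-- antitone functions: `EE` is antitone in the density -/
theorem EE_anti (hM : ST_EMON) {θ θ' : ℝ} (h0 : 0 ≤ θ) (hq : θ ≤ θ') (h1 : 2 * θ' ≤ 1)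
    {F : Finset V → ℝ} (h : ∀ A B, A ⊆ B → F B ≤ F A) : EE θ' F ≤ EE θ F := by
  unfold EE
  refine intervalIntegral.integral_mono_on (by norm_num) (EE_int θ' F) (EE_int θ F) ?_
  intro α hα
  exact hM V (α * θ) (α * θ') (by nlinarith [hα.1]) (by nlinarith [hα.1])
    (by nlinarith [hα.2]) F h

/-! pairs -/

theorem E2_add (q r : ℝ) (F G : Finset V → Finset V → ℝ) :
    E2 q r (fun A B => F A B + G A B) = E2 q r F + E2 q r G := by
  unfold E2
  rw [← sum_add_distrib]
  refine sum_congr rfl fun A _ => ?_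
  rw [← sum_add_distrib]
  refine sum_congr rfl fun B _ => ?_
  split_ifs <;> ring

theorem E2_mul (q r c : ℝ) (F : Finset V → Finset V → ℝ) :
    E2 q r (fun A B => c * F A B) = c * E2 q r F := by
  unfold E2
  rw [mul_sum]
  refine sum_congr rfl fun A _ => ?_
  rw [mul_sum]
  refine sum_congr rfl fun B _ => ?_
  split_ifs <;> ring

theorem E2_mono {q r : ℝ} (h0 : 0 ≤ q) (h1 : 0 ≤ r) (h2 : q + r ≤ 1)
    {F G : Finset V → Finset V → ℝ} (h : ∀ A B, Disjoint A B → F A B ≤ G A B) :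
    E2 q r F ≤ E2 q r G := by
  unfold E2
  refine sum_le_sum fun A _ => sum_le_sum fun B _ => ?_
  split_ifs with hd
  · refine mul_le_mul_of_nonneg_left (h A B hd) ?_
    have : 0 ≤ 1 - q - r := by linarith
    positivity
  · exact le_rfl

theorem E2_cont (θ₁ θ₂ : ℝ) (F : Finset V → Finset V → ℝ) :
    Continuous fun α : ℝ => E2 (α * θ₁) (α * θ₂) F := by
  unfold E2
  refine continuous_finsetSum _ fun A _ => continuous_finsetSum _ fun B _ => ?_
  split_ifs
  · fun_prop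
  · exact continuous_const

theorem EE2_int (θ₁ θ₂ : ℝ) (F : Finset V → Finset V → ℝ) :
    IntervalIntegrable (fun α : ℝ => E2 (α * θ₁) (α * θ₂) F) volume 1 2 :=
  (E2_cont θ₁ θ₂ F).intervalIntegrable _ _

theorem EE2_add (θ₁ θ₂ : ℝ) (F G : Finset V → Finset V → ℝ) :
    EE2 θ₁ θ₂ (fun A B => F A B + G A B) = EE2 θ₁ θ₂ F + EE2 θ₁ θ₂ G := by
  unfold EE2
  rw [← intervalIntegral.integral_add (EE2_int θ₁ θ₂ F) (EE2_int θ₁ θ₂ G)]
  exact intervalIntegral.integral_congr fun α _ => E2_add _ _ F G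

theorem EE2_mul (θ₁ θ₂ c : ℝ) (F : Finset V → Finset V → ℝ) :
    EE2 θ₁ θ₂ (fun A B => c * F A B) = c * EE2 θ₁ θ₂ F := by
  unfold EE2
  rw [← intervalIntegral.integral_const_mul]
  exact intervalIntegral.integral_congr fun α _ => E2_mul _ _ c F

theorem EE2_mono {θ₁ θ₂ : ℝ} (h0 : 0 ≤ θ₁) (h1 : 0 ≤ θ₂) (h2 : θ₁ + θ₂ ≤ 1 / 2)
    {F G : Finset V → Finset V → ℝ} (h : ∀ A B, Disjoint A B → F A B ≤ G A B) :
    EE2 θ₁ θ₂ F ≤ EE2 θ₁ θ₂ G := by
  unfold EE2
  refine intervalIntegral.integral_mono_on (by norm_num) (EE2_int θ₁ θ₂ F) (EE2_int θ₁ θ₂ G) ?_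
  intro α hα
  exact E2_mono (by nlinarith [hα.1]) (by nlinarith [hα.1]) (by nlinarith [hα.1, hα.2]) h

theorem EE2_left (hM : ST_E2M) {θ₁ θ₂ : ℝ} (h0 : 0 ≤ θ₁) (h1 : 0 ≤ θ₂) (h2 : θ₁ + θ₂ ≤ 1 / 2)
    (F : Finset V → ℝ) : EE2 θ₁ θ₂ (fun A _ => F A) = EE θ₁ F := by
  unfold EE2 EE
  refine intervalIntegral.integral_congr fun α hα => ?_
  rw [Set.uIcc_of_le (by norm_num)] at hα
  exact (hM V (α * θ₁) (α * θ₂) (by nlinarith [hα.1]) (by nlinarith [hα.1])
    (by nlinarith [hα.1, hα.2])).1 F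

theorem EE2_right (hM : ST_E2M) {θ₁ θ₂ : ℝ} (h0 : 0 ≤ θ₁) (h1 : 0 ≤ θ₂) (h2 : θ₁ + θ₂ ≤ 1 / 2)
    (F : Finset V → ℝ) : EE2 θ₁ θ₂ (fun _ B => F B) = EE θ₂ F := by
  unfold EE2 EE
  refine intervalIntegral.integral_congr fun α hα => ?_
  rw [Set.uIcc_of_le (by norm_num)] at hα
  exact (hM V (α * θ₁) (α * θ₂) (by nlinarith [hα.1]) (by nlinarith [hα.1])
    (by nlinarith [hα.1, hα.2])).2.1 F

theorem EE2_union (hM : ST_E2M) {θ₁ θ₂ : ℝ} (h0 : 0 ≤ θ₁) (h1 : 0 ≤ θ₂)
    (h2 : θ₁ + θ₂ ≤ 1 / 2) (F : Finset V → ℝ) :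
    EE2 θ₁ θ₂ (fun A B => F (A ∪ B)) = EE (θ₁ + θ₂) F := by
  unfold EE2 EE
  refine intervalIntegral.integral_congr fun α hα => ?_
  rw [Set.uIcc_of_le (by norm_num)] at hα
  have := (hM V (α * θ₁) (α * θ₂) (by nlinarith [hα.1]) (by nlinarith [hα.1])
    (by nlinarith [hα.1, hα.2])).2.2.1 F
  rw [← mul_add] at this
  exact this

theorem EE2_swap (hM : ST_E2M) {θ₁ θ₂ : ℝ} (h0 : 0 ≤ θ₁) (h1 : 0 ≤ θ₂)
    (h2 : θ₁ + θ₂ ≤ 1 / 2) (F : Finset V → Finset V → ℝ) :
    EE2 θ₁ θ₂ F = EE2 θ₂ θ₁ fun A B => F B A := by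
  unfold EE2
  refine intervalIntegral.integral_congr fun α hα => ?_
  rw [Set.uIcc_of_le (by norm_num)] at hα
  exact (hM V (α * θ₁) (α * θ₂) (by nlinarith [hα.1]) (by nlinarith [hα.1])
    (by nlinarith [hα.1, hα.2])).2.2.2 F

end prob

/-! ### hosts -/

section host
variable {V : Type} [Fintype V] [DecidableEq V] {p : ℕ}

theorem mem_N_true (h : Host V p) (x w : V) : w ∈ h.N true x ↔ h.B x w := by
  unfold Host.N; simp

theorem mem_N_false (h : Host V p) (x w : V) : w ∈ h.N false x ↔ h.B w x := by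
  unfold Host.N; simp

theorem N_symm (h : Host V p) (s : Bool) (x w : V) : w ∈ h.N s x ↔ x ∈ h.N (!s) w := by
  cases s
  · simp only [Bool.not_false]; rw [mem_N_true, mem_N_false]
  · simp only [Bool.not_true]; rw [mem_N_true, mem_N_false]

theorem N_ne (h : Host V p) {s : Bool} {x w : V} (hw : w ∈ h.N s x) : w ≠ x := by
  cases s
  · rw [mem_N_false] at hw; exact h.ne _ _ hw
  · rw [mem_N_true] at hw; exact (h.ne _ _ hw).symm

/-- double counting -/
theorem DC (h : Host V p) (s : Bool) (f : V → V → ℝ) :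
    ∑ x, ∑ w ∈ h.N s x, f x w = ∑ w, ∑ x ∈ h.N (!s) w, f x w := by
  have h1 : ∀ x, ∑ w ∈ h.N s x, f x w = ∑ w, if w ∈ h.N s x then f x w else 0 := by
    intro x; rw [← sum_filter]; simp
  have h2 : ∀ w, ∑ x ∈ h.N (!s) w, f x w = ∑ x, if x ∈ h.N (!s) w then f x w else 0 := by
    intro w; rw [← sum_filter]; simp
  rw [sum_congr rfl fun x _ => h1 x, sum_congr rfl fun w _ => h2 w, sum_comm]
  refine sum_congr rfl fun w _ => sum_congr rfl fun x _ => ?_
  simp only [N_symm h s x w]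

/-- number of edges -/
def tot (h : Host V p) (s : Bool) : ℝ := ∑ x, (#(h.N s x) : ℝ)

theorem tot_not (h : Host V p) (s : Bool) : tot h (!s) = tot h s := by
  unfold tot
  have := DC h s (fun _ _ => (1 : ℝ))
  simp only [sum_const, nsmul_eq_mul, mul_one] at this
  exact this.symm

theorem tot_nonneg (h : Host V p) (s : Bool) : 0 ≤ tot h s := by unfold tot; positivity

theorem tot_pos {h : Host V p} {D : ℕ} (hg : h.Good D) (s : Bool) : 0 < tot h s := by
  have h1 : 0 < tot h true := by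
    obtain ⟨x, hx⟩ := hg.nonempty
    unfold tot
    refine sum_pos' (fun _ _ => by positivity) ⟨x, mem_univ x, ?_⟩
    exact_mod_cast card_pos.2 hx
  cases s
  · have := tot_not h true
    simp only [Bool.not_true] at this
    rw [this]; exact h1
  · exact h1

theorem av_def (h : Host V p) (s : Bool) (f : V → ℝ) :
    av h s f = (∑ x, (#(h.N s x) : ℝ) * f x) / tot h s := rfl

theorem av_mono {h : Host V p} {s : Bool} {f g : V → ℝ}
    (hfg : ∀ x, (h.N s x).Nonempty → f x ≤ g x) : av h s f ≤ av h s g := by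
  rw [av_def, av_def]
  refine div_le_div_of_nonneg_right (sum_le_sum fun x _ => ?_) (tot_nonneg h s)
  rcases (h.N s x).eq_empty_or_nonempty with hx | hx
  · simp [hx]
  · exact mul_le_mul_of_nonneg_left (hfg x hx) (by positivity)

theorem av_add (h : Host V p) (s : Bool) (f g : V → ℝ) :
    av h s (fun x => f x + g x) = av h s f + av h s g := by
  rw [av_def, av_def, av_def, ← add_div, ← sum_add_distrib]
  congr 1
  exact sum_congr rfl fun x _ => by ring

theorem av_mul (h : Host V p) (s : Bool) (c : ℝ) (f : V → ℝ) :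
    av h s (fun x => c * f x) = c * av h s f := by
  rw [av_def, av_def, ← mul_div_assoc, mul_sum]
  congr 1
  exact sum_congr rfl fun x _ => by ring

theorem av_const {h : Host V p} {D : ℕ} (hg : h.Good D) (s : Bool) (c : ℝ) :
    av h s (fun _ => c) = c := by
  rw [av_def, ← sum_mul]
  have := tot_pos hg s
  unfold tot at *
  field_simp

theorem av_nonneg {h : Host V p} {s : Bool} {f : V → ℝ} (hf : ∀ x, 0 ≤ f x) :
    0 ≤ av h s f := by
  rw [av_def]
  exact div_nonneg (sum_nonneg fun x _ => mul_nonneg (by positivity) (hf x)) (tot_nonneg h s)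

/-- average over the edges, vertex of the side `s` first -/
def ave (h : Host V p) (s : Bool) (f : V → V → ℝ) : ℝ :=
  (∑ x, ∑ w ∈ h.N s x, f x w) / tot h s

theorem ave_left (h : Host V p) (s : Bool) (f : V → ℝ) :
    ave h s (fun x _ => f x) = av h s f := by
  unfold ave
  rw [av_def]
  simp only [sum_const, nsmul_eq_mul]

theorem ave_right (h : Host V p) (s : Bool) (f : V → ℝ) :
    ave h s (fun _ w => f w) = av h (!s) f := by
  unfold ave
  rw [av_def, DC h s (fun _ w => f w), tot_not]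
  simp only [sum_const, nsmul_eq_mul]

theorem ave_swap (h : Host V p) (s : Bool) (f : V → V → ℝ) :
    ave h s f = ave h (!s) (fun w x => f x w) := by
  unfold ave
  rw [DC h s f, tot_not]

theorem ave_add (h : Host V p) (s : Bool) (f g : V → V → ℝ) :
    ave h s (fun x w => f x w + g x w) = ave h s f + ave h s g := by
  unfold ave
  rw [← add_div, ← sum_add_distrib]
  congr 1
  exact sum_congr rfl fun x _ => sum_add_distrib

theorem ave_mul (h : Host V p) (s : Bool) (c : ℝ) (f : V → V → ℝ) :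
    ave h s (fun x w => c * f x w) = c * ave h s f := by
  unfold ave
  rw [← mul_div_assoc, mul_sum]
  congr 1
  exact sum_congr rfl fun x _ => by rw [mul_sum]

theorem ave_mono {h : Host V p} {s : Bool} {f g : V → V → ℝ}
    (hfg : ∀ x, ∀ w ∈ h.N s x, f x w ≤ g x w) : ave h s f ≤ ave h s g := by
  unfold ave
  exact div_le_div_of_nonneg_right (sum_le_sum fun x _ => sum_le_sum fun w hw => hfg x w hw)
    (tot_nonneg h s)

/-- the average influence of a neighbour is at most `M / (θ D)` -/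
theorem ave_infl (hI : ST_INF) {h : Host V p} {D : ℕ} (hD : 0 < D) (hg : h.Good D) (s : Bool)
    {θ M : ℝ} (h0 : 0 < θ) (h1 : 2 * θ ≤ 1) (F : V → Finset V → ℝ)
    (hF : ∀ x, ∀ A B, A ⊆ B → F x A ≤ F x B) (hF0 : ∀ x A, 0 ≤ F x A)
    (hFM : ∀ x A, F x A ≤ M) :
    ave h s (fun x w => EE θ fun A => F x (insert w A) - F x (A.erase w)) ≤ M / (θ * D) := by
  have hDp : (0 : ℝ) < D := by exact_mod_cast hD
  have hnn : ∀ x w, 0 ≤ EE θ fun A => F x (insert w A) - F x (A.erase w) := by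
    intro x w
    refine EE_nonneg h0.le h1 fun A => sub_nonneg.2 (hF x _ _ ?_)
    exact (A.erase_subset w).trans (A.subset_insert w)
  have hM : 0 ≤ M := by
    obtain ⟨x, _⟩ := hg.nonempty
    exact (hF0 x ∅).trans (hFM x ∅)
  have h2 : ∀ x, ∑ w ∈ h.N s x, EE θ (fun A => F x (insert w A) - F x (A.erase w)) ≤
      (#(h.N s x) : ℝ) * (M / (θ * D)) := by
    intro x
    rcases (h.N s x).eq_empty_or_nonempty with hx | hx
    · simp [hx]
    · have h3 : ∑ w ∈ h.N s x, EE θ (fun A => F x (insert w A) - F x (A.erase w)) ≤ M / θ :=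
        (sum_le_univ_sum_of_nonneg fun w => hnn x w).trans
          (hI V θ M h0 h1 (F x) (hF x) (hF0 x) (hFM x))
      refine h3.trans ?_
      have h4 : (D : ℝ) ≤ #(h.N s x) := by exact_mod_cast hg.deg s x hx
      calc M / θ = D * (M / (θ * D)) := by field_simp
        _ ≤ _ := mul_le_mul_of_nonneg_right h4 (by positivity)
  unfold ave
  rw [div_le_iff₀ (tot_pos hg s)]
  refine (sum_le_sum fun x _ => h2 x).trans ?_
  rw [← sum_mul, mul_comm]
  rfl

end host

/-! ### embeddings -/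

section emb
variable {V : Type} [Fintype V] [DecidableEq V] {p : ℕ}

theorem Emb_notMem (h : Host V p) : ∀ (t : RT) (s : Bool) (u : V) (φ : Finset V) (x : ZMod p),
    Emb h t s u φ x → u ∉ φ
  | RT.nil, _, _, _, _, hE => by rw [hE.1]; simp
  | RT.cons a b, s, u, φ, x, hE => by
    obtain ⟨w, φa, φb, y, z, hw, -, hb, hu, -, -, rfl, -⟩ := hE
    have := Emb_notMem h b s u φb z hb
    simp only [mem_insert, mem_union, not_or]
    exact ⟨(N_ne h hw).symm, hu, this⟩

theorem Emb_card (h : Host V p) : ∀ (t : RT) (s : Bool) (u : V) (φ : Finset V) (x : ZMod p),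
    Emb h t s u φ x → #φ = t.e
  | RT.nil, _, _, _, _, hE => by rw [hE.1]; simp [RT.e]
  | RT.cons a b, s, u, φ, x, hE => by
    obtain ⟨w, φa, φb, y, z, -, ha, hb, -, hwb, hd, rfl, -⟩ := hE
    have h1 := Emb_card h a (!s) w φa y ha
    have h2 := Emb_card h b s u φb z hb
    have h3 := Emb_notMem h a (!s) w φa y ha
    rw [card_insert_of_notMem (by rw [mem_union, not_or]; exact ⟨h3, hwb⟩),
      card_union_of_disjoint hd, h1, h2]
    rfl

theorem Emb_app (h : Host V p) : ∀ (t₁ t₂ : RT) (s : Bool) (u : V) (φ₁ φ₂ : Finset V)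
    (x₁ x₂ : ZMod p), Emb h t₁ s u φ₁ x₁ → Emb h t₂ s u φ₂ x₂ → Disjoint φ₁ φ₂ →
    Emb h (t₁.app t₂) s u (φ₁ ∪ φ₂) (x₁ + x₂)
  | RT.nil, t₂, s, u, φ₁, φ₂, x₁, x₂, h1, h2, _ => by
    obtain ⟨rfl, rfl⟩ := h1
    simpa [RT.app] using h2
  | RT.cons a b, t₂, s, u, φ₁, φ₂, x₁, x₂, h1, h2, hd => by
    obtain ⟨w, φa, φb, y, z, hw, ha, hb, hu, hwb, hab, rfl, rfl⟩ := h1
    rw [disjoint_insert_left, disjoint_union_left] at hd
    have h3 := Emb_app h b t₂ s u φb φ₂ z x₂ hb h2 hd.2.2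
    refine ⟨w, φa, φb ∪ φ₂, y, z + x₂, hw, ha, h3, hu, ?_, ?_, ?_, by ring⟩
    · rw [mem_union, not_or]; exact ⟨hwb, hd.1⟩
    · rw [disjoint_union_right]; exact ⟨hab, hd.2.1⟩
    · rw [insert_union, union_assoc]

theorem Emb_app_split (h : Host V p) : ∀ (t₁ t₂ : RT) (s : Bool) (u : V) (φ : Finset V)
    (x : ZMod p), Emb h (t₁.app t₂) s u φ x → ∃ φ₁ φ₂ x₁ x₂, Emb h t₁ s u φ₁ x₁ ∧
      Emb h t₂ s u φ₂ x₂ ∧ Disjoint φ₁ φ₂ ∧ φ = φ₁ ∪ φ₂ ∧ x = x₁ + x₂
  | RT.nil, t₂, s, u, φ, x, hE =>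
    ⟨∅, φ, 0, x, ⟨rfl, rfl⟩, hE, disjoint_empty_left _, (empty_union φ).symm, (zero_add x).symm⟩
  | RT.cons a b, t₂, s, u, φ, x, hE => by
    obtain ⟨w, φa, φc, y, z, hw, ha, hc, hu, hwc, hac, rfl, rfl⟩ := hE
    obtain ⟨φb, φ₂, x₁, x₂, hb, h2, hd, rfl, rfl⟩ := Emb_app_split h b t₂ s u φc z hc
    rw [mem_union, not_or] at hwc
    rw [disjoint_union_right] at hac
    refine ⟨insert w (φa ∪ φb), φ₂, h.c u w + y + x₁, x₂,
      ⟨w, φa, φb, y, x₁, hw, ha, hb, hu, hwc.1, hac.1, rfl, rfl⟩, h2, ?_, ?_, by ring⟩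
    · rw [disjoint_insert_left, disjoint_union_left]; exact ⟨hwc.2, hac.2, hd⟩
    · rw [insert_union, union_assoc]

theorem app_nil : ∀ t : RT, t.app RT.nil = t
  | RT.nil => rfl
  | RT.cons a b => by rw [RT.app, app_nil b]

theorem app_assoc : ∀ a b c : RT, (a.app b).app c = a.app (b.app c)
  | RT.nil, _, _ => rfl
  | RT.cons a b, c, d => by rw [RT.app, RT.app, RT.app, app_assoc b c d]

theorem e_app : ∀ a b : RT, (a.app b).e = a.e + b.e
  | RT.nil, b => by simp [RT.app, RT.e]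
  | RT.cons a b, c => by rw [RT.app, RT.e, RT.e, e_app b c]; ring

theorem g_app (s : Bool) : ∀ a b : RT, (a.app b).g s = a.g s + b.g s
  | RT.nil, b => by simp [RT.app, RT.g]
  | RT.cons a b, c => by rw [RT.app, RT.g, RT.g, g_app s b c]; ring

theorem g_le_e : ∀ (t : RT) (s : Bool), t.g s ≤ t.e
  | RT.nil, s => by simp [RT.g, RT.e]
  | RT.cons a b, s => by
    rw [RT.g, RT.e]
    have h1 := g_le_e a (!s)
    have h2 := g_le_e b s
    split_ifs <;> omega

variable [NeZero p]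

theorem mem_X (h : Host V p) (t : RT) (s : Bool) (u : V) (A : Finset V) (x : ZMod p) :
    x ∈ X h t s u A ↔ ∃ φ, φ ⊆ A ∧ Emb h t s u φ x := by unfold X; simp

theorem X_mono (h : Host V p) (t : RT) (s : Bool) (u : V) {A B : Finset V} (hAB : A ⊆ B) :
    X h t s u A ⊆ X h t s u B := by
  intro x hx
  rw [mem_X] at hx ⊢
  obtain ⟨φ, h1, h2⟩ := hx
  exact ⟨φ, h1.trans hAB, h2⟩

theorem X_nil (h : Host V p) (s : Bool) (u : V) (A : Finset V) : X h RT.nil s u A = {0} := by
  ext x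
  rw [mem_X, mem_singleton]
  constructor
  · rintro ⟨φ, -, -, h2⟩; exact h2
  · rintro rfl; exact ⟨∅, empty_subset _, rfl, rfl⟩

theorem cs_mono (h : Host V p) (t : RT) (s : Bool) (u : V) (T : ℕ) {A B : Finset V}
    (hAB : A ⊆ B) : cs h t s u T A ≤ cs h t s u T B := by
  unfold cs
  have := card_le_card (X_mono h t s u hAB)
  omega

theorem cs_le (h : Host V p) (t : RT) (s : Bool) (u : V) (T : ℕ) (A : Finset V) :
    cs h t s u T A ≤ T := min_le_right _ _

theorem cs_le_card (h : Host V p) (t : RT) (s : Bool) (u : V) (T : ℕ) (A : Finset V) :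
    cs h t s u T A ≤ #(X h t s u A) := min_le_left _ _

/-- the basic containment of a branch -/
theorem X_branch (h : Host V p) (a : RT) {s : Bool} {u w : V} (hw : w ∈ h.N s u)
    (A : Finset V) {x : ZMod p} (hx : x ∈ X h a (!s) w (A.erase u)) :
    h.c u w + x ∈ X h (RT.cons a RT.nil) s u (insert w A) := by
  rw [mem_X] at hx ⊢
  obtain ⟨φ, h1, h2⟩ := hx
  refine ⟨insert w (φ ∪ ∅), ?_, w, φ, ∅, x, 0, hw, h2, ⟨rfl, rfl⟩, ?_, by simp, by simp, rfl,
    by ring⟩
  · rw [union_empty]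
    exact insert_subset_insert w (h1.trans (erase_subset u A))
  · intro hu
    have := h1 hu
    simp at this

theorem card_X_branch (h : Host V p) (a : RT) {s : Bool} {u w : V} (hw : w ∈ h.N s u)
    (A : Finset V) : #(X h a (!s) w (A.erase u)) ≤ #(X h (RT.cons a RT.nil) s u (insert w A)) := by
  refine card_le_card_of_injOn (fun x => h.c u w + x) (fun x hx => X_branch h a hw A hx) ?_
  intro x _ y _ hxy
  exact add_left_cancel hxy

theorem cs_branch (h : Host V p) (a : RT) {s : Bool} {u w : V} (hw : w ∈ h.N s u) (T : ℕ)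
    (A : Finset V) :
    cs h a (!s) w T (A.erase u) ≤ cs h (RT.cons a RT.nil) s u T (insert w A) := by
  unfold cs
  have := card_X_branch h a hw A
  omega

/-- the basic containment of a merge -/
theorem X_app (h : Host V p) (t₁ t₂ : RT) (s : Bool) (u : V) {A B : Finset V}
    (hAB : Disjoint A B) {x y : ZMod p} (hx : x ∈ X h t₁ s u A) (hy : y ∈ X h t₂ s u B) :
    x + y ∈ X h (t₁.app t₂) s u (A ∪ B) := by
  rw [mem_X] at hx hy ⊢
  obtain ⟨φ, h1, h2⟩ := hx
  obtain ⟨ψ, h3, h4⟩ := hy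
  exact ⟨φ ∪ ψ, union_subset_union h1 h3,
    Emb_app h t₁ t₂ s u φ ψ x y h2 h4 (disjoint_of_subset_left h1 (disjoint_of_subset_right h3 hAB))⟩

end emb

end ZS
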