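import Pool.Agent.Helper99.ZS.Lib

set_option autoImplicit false

/-!
MP_98699e_co, module PROD: the generating function of the size of a random set.
-/

open Finset

noncomputable section

namespace ZS

theorem st_PROD : ST_PROD := by
  intro V _ _ q a S
  have h := Finset.prod_add (fun v : V => q * (if v ∈ S then a else 1)) (fun _ => 1 - q) univ
  rw [powerset_univ] at h
  unfold E
  have h1 : ∀ A : Finset V, (∏ v ∈ A, q * (if v ∈ S then a else 1)) * ∏ _v ∈ univ \ A, (1 - q) =
      q ^ #A * (1 - q) ^ (Fintype.card V - #A) * a ^ #(A ∩ S) := by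
    intro A
    rw [prod_mul_distrib, prod_const, prod_const, prod_ite_mem, prod_const,
      card_univ_sdiff]
    ring
  rw [← sum_congr rfl fun A _ => h1 A, ← h]
  have h2 : ∀ v : V, q * (if v ∈ S then a else 1) + (1 - q) =
      if v ∈ S then 1 - q + q * a else 1 := by
    intro v
    split_ifs <;> ring
  rw [prod_congr rfl fun v _ => h2 v, prod_ite_mem, univ_inter, prod_const]

end ZS
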