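import Pool.Agent.Helper99.ZS.Lib

set_option autoImplicit false

/-!
MP_98699e_co, module RER: rerooting.
-/

open Finset

namespace ZS

theorem st_RER : ST_RER := by
  intro V _ _ p h a b v s w φ x
  constructor
  · intro hE
    obtain ⟨φ₁, φ₂, x₁, x₂, h1, h2, hd, rfl, rfl⟩ := Emb_app_split h _ _ _ _ _ _ hE
    obtain ⟨u, φa, φb, y, z, hu, h3, h4, hwa, hub, -, rfl, rfl⟩ := h2
    obtain ⟨rfl, rfl⟩ := h4
    rw [Bool.not_not] at h3
    rw [union_empty, disjoint_insert_right] at hd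
    refine ⟨u, insert w (φ₁ ∪ φa), ?_⟩
    rw [RT.app]
    refine ⟨w, φ₁, φa, x₁, y, (N_symm h s u w).2 hu, h1, h3, hd.1, hwa, hd.2, rfl, ?_⟩
    rw [h.symm w u]
    ring
  · intro hE
    obtain ⟨φ₁, φ₂, x₁, x₂, h1, h2, hd, rfl, rfl⟩ := Emb_app_split h _ _ _ _ _ _ hE
    rw [RT.app, RT.app] at h2
    obtain ⟨w', φa, φv, y, z, hw', h3, h4, hua, hwv, hav, rfl, rfl⟩ := h2
    rw [disjoint_insert_right, disjoint_union_right] at hd
    rw [RT.app]
    refine ⟨w', φa, φ₁ ∪ φv, y, x₁ + z, hw', h3, Emb_app h b v s w φ₁ φv x₁ z h1 h4 hd.2.2, hua,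
      ?_, ?_, ?_, by ring⟩
    · rw [mem_union, not_or]; exact ⟨hd.1, hwv⟩
    · rw [disjoint_union_right]; exact ⟨hd.2.1.symm, hav⟩
    · ext z
      simp only [mem_union, mem_insert]
      tauto

end ZS
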