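import Pool.Agent.Helper99.ZS.Lib

set_option autoImplicit false

/-!
MP_98699e_co, module RES: the final theorem.
-/

open Finset

noncomputable section

namespace ZS

/-- the minimum degree of a host whose rich vertices see every colour fewer than `p` times -/
theorem res_big {V : Type} [Fintype V] [DecidableEq V] {p : ℕ} [NeZero p] {h : Host V p}
    (hg : h.Good (8192 * p)) : 8192 < p := by
  obtain ⟨x, hx⟩ := hg.nonempty
  have h1 := hg.deg true x hx
  have h2 : #(h.N true x) = ∑ a : ZMod p, #{w ∈ h.N true x | h.c x w = a} := by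
    rw [← card_eq_sum_card_fiberwise (fun _ _ => by simp)]
  have hp : 0 < p := Nat.pos_of_ne_zero (NeZero.ne p)
  have h3 : ∑ a : ZMod p, #{w ∈ h.N true x | h.c x w = a} < ∑ _a : ZMod p, p := by
    refine sum_lt_sum_of_nonempty univ_nonempty fun a _ => ?_
    have := hg.col x a
    convert this
  rw [sum_const, card_univ, ZMod.card, smul_eq_mul] at h3
  have h4 : 8192 * p < p * p := by omega
  exact lt_of_mul_lt_mul_right h4 hp.le

theorem res_Tg {p : ℕ} {s : Bool} {t : RT} (h : p ≤ 16 * t.g s) : Tg p s t = p := by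
  unfold Tg
  omega

theorem st_RES (h1 : ST_HOST) (h2 : ST_MONO) (h3 : ST_CODE) (h4 : ST_REAL) (h5 : ST_CENT)
    (h6 : ST_IND) (h7 : ST_FIN) : ST_RES := by
  intro m hm T _ hT V _ _ G _ hG c
  classical
  have : Fact m.Prime := ⟨hm⟩
  have hcard : #T.edgeFinset = m := by
    have := hT.card_edgeFinset
    rw [Fintype.card_fin] at this
    omega
  rcases h1 V m G (fun x y => c s(x, y)) (fun x y => by rw [Sym2.eq_swap]) hG with
    ⟨a, W, hW, hd⟩ | ⟨h, hg, hc, hB⟩
  · -- a colour class contains all trees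
    let H : SimpleGraph V :=
      { Adj := fun x y => G.Adj x y ∧ c s(x, y) = a
        symm := ⟨fun x y hxy => ⟨hxy.1.symm, by rw [Sym2.eq_swap]; exact hxy.2⟩⟩
        loopless := ⟨fun x hx => G.loopless.irrefl x hx.1⟩ }
    obtain ⟨f, hf, hfa⟩ := h2 m T hT V H W hW hd
    refine ⟨f, hf, fun x y hxy => (hfa x y hxy).1, ?_⟩
    have : ∀ e ∈ T.edgeFinset, c (Sym2.map f e) = a := by
      intro e he
      induction e using Sym2.ind with
      | _ x y =>
        rw [SimpleGraph.mem_edgeFinset, SimpleGraph.mem_edgeSet] at he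
        exact (hfa x y he).2
    rw [sum_congr rfl this, sum_const, hcard]
    simp
  · obtain ⟨t, ht⟩ := h3 (Fin (m + 1)) T hT 0
    have hR := h4 (Fin (m + 1)) V T m h c (fun x y => by rw [hc]) t univ 0 ht
    have hm' := res_big hg
    have he : t.e = m := by
      have := hR.2.1
      rw [card_univ, Fintype.card_fin] at this
      omega
    obtain ⟨s, s', t₁, t₂, he12, hg1, hg2, hE⟩ := h5 t (by omega)
    have hp : (0 : ℝ) < m := by
      have : 0 < m := by omega
      exact_mod_cast this
    have hge1 := g_le_e t₁ s'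
    have hge2 := g_le_e t₂ s'
    have hI1 := h6 V m h (by omega) hg t₁ s' (by omega) (by omega)
    have hI2 := h6 V m h (by omega) hg t₂ s' (by omega) (by omega)
    rw [res_Tg (by omega)] at hI1 hI2
    have hsum : (t₁.e : ℝ) + t₂.e = m := by exact_mod_cast he12.trans he
    obtain ⟨u, φ, hemb⟩ := h7 V m h (8192 * m) (by omega) hg t₁ t₂ s' (t₁.e / (4 * m))
      (t₂.e / (4 * m)) (by positivity) (by positivity)
      (by rw [← add_div, hsum, div_le_iff₀ (by positivity)]; linarith) (by linarith)
    obtain ⟨u', φ', hemb'⟩ := hE V m h u φ 0 hemb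
    obtain ⟨f, -, -, hinj, hadj, hs⟩ := hR.2.2 s u' φ' 0 hemb'
    refine ⟨f, ?_, fun x y hxy => ?_, ?_⟩
    · intro x y hxy
      exact hinj (mem_univ x) (mem_univ y) hxy
    · rcases hadj x (mem_univ x) y (mem_univ y) hxy with hb | hb
      · exact hB _ _ hb
      · exact (hB _ _ hb).symm
    · rw [← hs]
      refine sum_congr ?_ fun _ _ => rfl
      ext e
      simp

end ZS
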