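import Pool.Agent.Helper99.ZS.Defs

set_option autoImplicit false

/-!
MP_98699e_co: module statements (blueprint /team-store/zs_blueprint.md).
-/

open Finset

noncomputable section

namespace ZS

/-! ### A. probability on finite sets -/

def ST_PROD : Prop := ∀ (V : Type) [Fintype V] [DecidableEq V] (q a : ℝ) (S : Finset V),
  E q (fun A : Finset V => a ^ #(A ∩ S)) = (1 - q + q * a) ^ #S

def ST_HAR : Prop := ∀ (V : Type) [Fintype V] [DecidableEq V] (q : ℝ), 0 ≤ q → q ≤ 1 →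
  ∀ (w : V) (F : Finset V → ℝ), (∀ A B, A ⊆ B → F B ≤ F A) →
    E q (fun A => if w ∈ A then F A else 0) ≤ q * E q F

def ST_EMON : Prop := ∀ (V : Type) [Fintype V] [DecidableEq V] (q r : ℝ), 0 ≤ q → q ≤ r → r ≤ 1 →
  ∀ F : Finset V → ℝ, (∀ A B, A ⊆ B → F B ≤ F A) → E r F ≤ E q F

/-- the total influence (Russo's formula, integrated) -/
def ST_INF : Prop := ∀ (V : Type) [Fintype V] [DecidableEq V] (θ M : ℝ), 0 < θ → 2 * θ ≤ 1 →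
  ∀ F : Finset V → ℝ, (∀ A B, A ⊆ B → F A ≤ F B) → (∀ A, 0 ≤ F A) → (∀ A, F A ≤ M) →
    ∑ w : V, EE θ (fun A => F (insert w A) - F (A.erase w)) ≤ M / θ

def ST_E2M : Prop := ∀ (V : Type) [Fintype V] [DecidableEq V] (q r : ℝ), 0 ≤ q → 0 ≤ r →
  q + r ≤ 1 → (∀ F : Finset V → ℝ, E2 q r (fun A _ => F A) = E q F) ∧
    (∀ F : Finset V → ℝ, E2 q r (fun _ B => F B) = E r F) ∧
    (∀ F : Finset V → ℝ, E2 q r (fun A B => F (A ∪ B)) = E (q + r) F) ∧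
    ∀ F : Finset V → Finset V → ℝ, E2 q r F = E2 r q fun A B => F B A

def ST_COND : Prop := ∀ (V : Type) [Fintype V] [DecidableEq V] (q r : ℝ), r < 1 →
  ∀ F : Finset V → Finset V → ℝ,
    E2 q r F = E r fun a => E (q / (1 - r)) fun B => F (B \ a) a

def ST_FALL : Prop := ∀ (V : Type) [Fintype V] [DecidableEq V] (θ₁ θ₂ : ℝ), 0 ≤ θ₁ → 0 ≤ θ₂ →
  θ₁ ≤ 1 / 4 → θ₂ ≤ 1 / 4 → ∀ H : Finset V → Finset V → ℝ,
    (∀ A B, 0 ≤ H A B) → (∀ A B B', B ⊆ B' → H A B' ≤ H A B) →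
    EE2 θ₁ θ₂ H ≤ E θ₂ fun a => EE (θ₁ / (1 - θ₂)) fun B => H (B \ a) a

/-! ### B. one step of the construction -/

def ST_BR : Prop := ∀ (V : Type) [Fintype V] [DecidableEq V] (p : ℕ) [NeZero p] (h : Host V p)
  (D : ℕ), 0 < D → h.Good D → ∀ (a : RT) (s : Bool) (T : ℕ) (θ : ℝ), 0 < θ → 2 * θ ≤ 1 →
    DF h θ (RT.cons a RT.nil) s T ≤ DF h θ a (!s) T + 2 * T / (θ * D)

def ST_BRL : Prop := ∀ (V : Type) [Fintype V] [DecidableEq V] (p : ℕ) [NeZero p] (h : Host V p)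
  (D : ℕ), 0 < D → h.Good D → ∀ (T : ℕ) (θ : ℝ), 0 < θ → 2 * θ ≤ 1 → 2 * p * T ≤ D →
    DF h θ (RT.cons RT.nil RT.nil) true T ≤ 2 * T * T / (θ * D)

open Classical in
def ST_BR2 : Prop := ∀ (V : Type) [Fintype V] [DecidableEq V] (p : ℕ) [Fact p.Prime] (h : Host V p)
  (D : ℕ), 0 < D → p ≠ 2 → h.Good D → ∀ (a : RT) (T T' R : ℕ) (θ : ℝ), 0 < θ → 2 * θ ≤ 1 →
    1 ≤ R → 2 * p * R ≤ D → T ≤ p → T' ≤ T → T ≤ T' + R - 1 →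
    DF h θ (RT.cons (RT.cons a RT.nil) RT.nil) true T ≤ DF h θ a true T' +
      6 * R * T / (θ * D) +
      R * av h true (fun u => EE θ fun A => if X h a true u A = ∅ then 1 else 0)

/-- attaching a tree by an embedding with small influence -/
def ST_ATT : Prop := ∀ (V : Type) [Fintype V] [DecidableEq V] (p : ℕ) [NeZero p] (h : Host V p)
  (D : ℕ), h.Good D → ∀ (t : RT) (s : Bool) (u : V) (θ M : ℝ), 0 < θ → 2 * θ ≤ 1 →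
    2 * t.e ≤ D → 1 ≤ t.e → (h.N s u).Nonempty →
    ∀ Φ Ψ : Finset V → ℝ, (∀ A B, A ⊆ B → Φ A ≤ Φ B) → (∀ A B, A ⊆ B → Ψ A ≤ Ψ B) →
      (∀ A, 0 ≤ Φ A) → (∀ A, Φ A ≤ M) → (∀ A, 0 ≤ Ψ A) → (∀ A, Ψ A ≤ M) →
      (∀ (φ : Finset V) (x : ZMod p), Emb h t s u φ x → ∀ B, Φ (B \ φ) ≤ Ψ (B ∪ φ)) →
      EE θ (fun B => max (Φ B - Ψ B) 0) ≤ t.e * (4 * M / (θ * D))

/-- merging two trees at the root -/
def ST_MG : Prop := ∀ (V : Type) [Fintype V] [DecidableEq V] (p : ℕ) [Fact p.Prime] (h : Host V p)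
  (D : ℕ), 0 < D → h.Good D → ∀ (t₁ t₂ : RT) (s : Bool) (T₁ T₂ T : ℕ) (θ₁ θ₂ : ℝ),
    0 < θ₁ → θ₁ ≤ 1 / 4 → 0 < θ₂ → θ₂ ≤ 1 / 4 → 1 ≤ t₁.e → 1 ≤ t₂.e → 2 * t₁.e ≤ D →
    2 * t₂.e ≤ D → 1 ≤ T₁ → 1 ≤ T₂ → T₁ ≤ T → T₂ ≤ T → T ≤ p → T ≤ T₁ + T₂ - 1 →
    DF h (θ₁ + θ₂) (t₁.app t₂) s T ≤ DF h θ₁ t₁ s T₁ + DF h θ₂ t₂ s T₂ +
      t₂.e * (4 * T₁ / (θ₁ * D)) * em h θ₂ t₂ s + t₁.e * (4 * T₂ / (θ₂ * D)) * em h θ₁ t₁ s

/-- there is an embedding with high probability -/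
def ST_EM : Prop := ∀ (V : Type) [Fintype V] [DecidableEq V] (p : ℕ) [NeZero p] (h : Host V p)
  (D : ℕ), 0 < D → h.Good D → ∀ (t : RT) (s : Bool) (q : ℝ), 0 ≤ q → q ≤ 1 → 1 ≤ t.e →
    2048 * t.e ≤ q * D → em h q t s ≤ 1 / (2048 * t.e)

/-- the deficits add up -/
def ST_IND : Prop := ∀ (V : Type) [Fintype V] [DecidableEq V] (p : ℕ) [Fact p.Prime]
  (h : Host V p), p ≠ 2 → h.Good (8192 * p) → ∀ (t : RT) (s : Bool), 1 ≤ t.e → t.e ≤ p →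
    DF h (t.e / (4 * p)) t s (Tg p s t) ≤ 3 / 5 * t.e - 1 / 10

/-- two halves -/
def ST_FIN : Prop := ∀ (V : Type) [Fintype V] [DecidableEq V] (p : ℕ) [Fact p.Prime]
  (h : Host V p) (D : ℕ), 0 < D → h.Good D → ∀ (t₁ t₂ : RT) (s : Bool) (θ₁ θ₂ : ℝ), 0 ≤ θ₁ →
    0 ≤ θ₂ → θ₁ + θ₂ ≤ 1 / 2 → DF h θ₁ t₁ s p + DF h θ₂ t₂ s p < p →
    ∃ u φ, Emb h (t₁.app t₂) s u φ 0

/-! ### C. graphs -/

def ST_HOST : Prop := ∀ (V : Type) [Fintype V] [DecidableEq V] [Nonempty V] (p : ℕ)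
  [Fact p.Prime] (G : SimpleGraph V) [DecidableRel G.Adj] (c : V → V → ZMod p),
  (∀ x y, c x y = c y x) → (∀ v, 65536 * p ≤ G.degree v) →
    (∃ (a : ZMod p) (W : Finset V), W.Nonempty ∧
      ∀ v ∈ W, p ≤ #{w ∈ W | G.Adj v w ∧ c v w = a}) ∨
    ∃ h : Host V p, h.Good (8192 * p) ∧ h.c = c ∧ ∀ x y, h.B x y → G.Adj x y

/-- greedy embedding of a tree -/
def ST_MONO : Prop := ∀ (m : ℕ) (T : SimpleGraph (Fin (m + 1))), T.IsTree →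
  ∀ (V : Type) [Fintype V] [DecidableEq V] (H : SimpleGraph V) [DecidableRel H.Adj]
    (W : Finset V), W.Nonempty → (∀ v ∈ W, m ≤ #{w ∈ W | H.Adj v w}) →
    ∃ f : Fin (m + 1) → V, Function.Injective f ∧ ∀ a b, T.Adj a b → H.Adj (f a) (f b)

def ST_CODE : Prop := ∀ (τ : Type) [Fintype τ] [DecidableEq τ] (T : SimpleGraph τ), T.IsTree →
  ∀ r : τ, ∃ t : RT, Codes T t univ r

def ST_REAL : Prop := ∀ (τ V : Type) [Fintype τ] [DecidableEq τ] [Fintype V] [DecidableEq V]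
  (T : SimpleGraph τ) [DecidableRel T.Adj] (p : ℕ) (h : Host V p) (C : Sym2 V → ZMod p),
  (∀ x y, h.c x y = C s(x, y)) → ∀ (t : RT) (I : Finset τ) (r : τ), Codes T t I r →
    r ∈ I ∧ #I = t.e + 1 ∧ ∀ (s : Bool) (u : V) (φ : Finset V) (x : ZMod p), Emb h t s u φ x →
    ∃ f : τ → V, f r = u ∧ (∀ a ∈ I, a ≠ r → f a ∈ φ) ∧ Set.InjOn f I ∧
      (∀ a ∈ I, ∀ b ∈ I, T.Adj a b → h.B (f a) (f b) ∨ h.B (f b) (f a)) ∧
      ∑ e ∈ T.edgeFinset with ∀ a ∈ e, a ∈ I, C (Sym2.map f e) = x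

/-! ### D. rooted trees -/

def ST_CNT : Prop := ∀ t : RT, t.e ≤ 2 * (t.g true + t.g false)

/-- rerooting: the old root becomes a child of the root of `a` -/
def ST_RER : Prop := ∀ (V : Type) [Fintype V] [DecidableEq V] (p : ℕ) (h : Host V p)
  (a b v : RT) (s : Bool) (w : V) (φ : Finset V) (x : ZMod p),
  (Emb h (a.app (RT.cons (b.app v) RT.nil)) (!s) w φ x →
    ∃ u φ', Emb h ((RT.cons a b).app v) s u φ' x) ∧
  (Emb h (b.app ((RT.cons a RT.nil).app v)) s w φ x → Emb h ((RT.cons a b).app v) s w φ x)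

/-- a centroid -/
def ST_CENT : Prop := ∀ t : RT, 64 ≤ t.e → ∃ (s s' : Bool) (t₁ t₂ : RT),
  t₁.e + t₂.e = t.e ∧ t.e ≤ 16 * t₁.g s' ∧ t.e ≤ 16 * t₂.g s' ∧
  ∀ (V : Type) [Fintype V] [DecidableEq V] (p : ℕ) (h : Host V p) (u : V) (φ : Finset V)
    (x : ZMod p), Emb h (t₁.app t₂) s' u φ x → ∃ u' φ', Emb h t s u' φ' x

/-! ### E. final theorem -/

def ST_RES : Prop := ∀ (m : ℕ), m.Prime →
  ∀ (T : SimpleGraph (Fin (m + 1))) [DecidableRel T.Adj], T.IsTree →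
  ∀ (V : Type) [Fintype V] [Nonempty V] (G : SimpleGraph V) [DecidableRel G.Adj],
    (∀ v : V, 65536 * m ≤ G.degree v) →
    ∀ c : Sym2 V → ZMod m,
      ∃ f : Fin (m + 1) → V, Function.Injective f ∧
        (∀ a b : Fin (m + 1), T.Adj a b → G.Adj (f a) (f b)) ∧
        ∑ e ∈ T.edgeFinset, c (Sym2.map f e) = 0

end ZS
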